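import Pool.Agent.W_bbc525_td.Main

/-!
# Two degrees: sufficiency of the vertex condition and uniqueness
-/

set_option autoImplicit false
set_option linter.unusedSectionVars false

namespace Pool.Agent.W_bbc525_td

open Finset MeasureTheory Pool.Agent.W_MP_bbc525_pr Pool.Agent.W_bbc525_h89

variable {V : Type*} [Fintype V] [DecidableEq V] {H : SimpleGraph V} [DecidableRel H.Adj]

/-- only one of the two degrees occurs -/
theorem suff_one {k l : ℕ} (hk : 0 < k) (hkl : k < l) (hl : l ≤ 2 * k) (h : KL H k l)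
    (hE : 0 < H.edgeFinset.card) (hone : (∀ v, H.degree v ≠ k) ∨ (∀ v, H.degree v ≠ l))
    {p q : ℝ} (hp : 0 < p) (hpq : p ≤ q) (hq1 : q < 1) (hN : Ncond H p q) :
    ReplicaSymmetric H p q := by
  refine full_suff hE (KL_two hkl hl h) (s := fun _ => 0) (t := fun _ => 0) (fun e => le_refl _)
    (fun e he hlt => ?_) (fun d => ?_) hp hpq hq1 hN
  · exfalso
    have h2 := KL_type hk hkl h he
    obtain ⟨u, hu⟩ := exists_ndeg (H := H) e
    obtain ⟨v, hv⟩ := exists_mdeg (H := H) e
    rcases hone with h1 | h1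
    · exact h1 u (by omega)
    · exact h1 v (by omega)
  · simp

/-- the vertex condition for graphs of maximum degree two -/
theorem deg_two (hH : ∀ v, H.degree v ≤ 2) (hE : 0 < H.edgeFinset.card) {p q : ℝ}
    (hp : 0 < p) (hpq : p ≤ q) (hq1 : q < 1) (hN : Ncond H p q) :
    (nDeg H 2 : ℝ) * (logit q - logit p) ≤ 2 * H.edgeFinset.card * q * kq q := by
  have hq : 0 < q := lt_of_lt_of_le hp hpq
  have hp1 : p < 1 := lt_of_le_of_lt hpq hq1
  have hE' : (0:ℝ) < H.edgeFinset.card := by exact_mod_cast hE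
  by_contra hcon
  push Not at hcon
  have hC : kq q < (nDeg H 2 : ℝ) * (logit q - logit p) / (2 * H.edgeFinset.card * q) := by
    rw [lt_div_iff₀ (by positivity)]
    linarith
  obtain ⟨r, hr, hr1, hlt⟩ := exists_lt hq hq1 hC
  have h2 := hN r hr hr1
  rw [relEnt_shift hp hp1 hq hq1 hr hr1, sum_deg_two H hH] at h2
  have hcard := card_edges H hH
  have e1 : (nDeg H 2 : ℝ) * ((r / q) ^ 2 - 1) + (nDeg H 1 : ℝ) * (r / q - 1) =
      (nDeg H 2 : ℝ) * (r / q - 1) ^ 2 + 2 * H.edgeFinset.card * (r / q - 1) := by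
    rw [hcard]; ring
  rw [e1] at h2
  have e2 : q * (logit q - logit p) / (2 * (H.edgeFinset.card : ℝ)) *
      ((nDeg H 2 : ℝ) * (r / q - 1) ^ 2 + 2 * H.edgeFinset.card * (r / q - 1)) =
      (nDeg H 2 : ℝ) * (logit q - logit p) / (2 * H.edgeFinset.card * q) * (r - q) ^ 2 +
        (logit q - logit p) * (r - q) := by
    field_simp
  rw [e2] at h2
  linarith

/-- **Sufficiency of the vertex condition.** -/
theorem td_suff {k l : ℕ} (hk : 0 < k) (hkl : k < l) (hl : l ≤ 2 * k) (h : KL H k l)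
    (hE : 0 < H.edgeFinset.card) {p q : ℝ} (hp : 0 < p) (hpq : p ≤ q) (hq1 : q < 1)
    (hN : Ncond H p q) : ReplicaSymmetric H p q := by
  have hq : 0 < q := lt_of_lt_of_le hp hpq
  have hp1 : p < 1 := lt_of_le_of_lt hpq hq1
  have hE' : (0:ℝ) < H.edgeFinset.card := by exact_mod_cast hE
  have hk' : (0 : ℝ) < k := by exact_mod_cast hk
  have hl' : (0 : ℝ) < l := by exact_mod_cast hk.trans hkl
  rcases Nat.lt_or_ge k 2 with h1 | hk2
  · -- maximum degree two
    have hH : ∀ v, H.degree v ≤ 2 := fun v => by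
      rcases h v with h2 | h2 | h2 <;> omega
    exact (diagram_two H hH hE hp hpq hq1).1.2 (deg_two hH hE hp hpq hq1 hN)
  by_cases hu : ∃ v, H.degree v = k
  swap
  · push Not at hu
    exact suff_one hk hkl hl h hE (Or.inl hu) hp hpq hq1 hN
  by_cases hv : ∃ v, H.degree v = l
  swap
  · push Not at hv
    exact suff_one hk hkl hl h hE (Or.inr hv) hp hpq hq1 hN
  obtain ⟨u, hu⟩ := hu
  obtain ⟨v, hv⟩ := hv
  have nk := (cnt_pos hk hkl h (v := u)).1 hu
  have nl := (cnt_pos hk hkl h (v := v)).2 hv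
  rw [replicaSymmetric_iff H hp hpq hq1]
  intro W hW
  by_cases hx1 : W.mom k / q ^ k < 1
  · exact (excess hk2 hkl hl h hE nk nl hp hpq hq1 hN W hW hx1).le
  · push Not at hx1
    obtain ⟨hx0, hz0, hzx, -⟩ := feas hk hkl hl h hE hq W hW
    have hz1 : 1 ≤ W.mom l / q ^ l :=
      (Real.one_le_rpow hx1 (by positivity)).trans hzx
    have h3 := Ncond.cost_ge hp hp1 hN W
    rw [sum_deg hk hkl h (m := fun j => W.mom j / q ^ j) (by simp [Graphon.mom])] at h3
    have h4 := logit_mono hp hpq hq1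
    have h5 : 0 ≤ (q * (logit q - logit p) / (2 * (H.edgeFinset.card : ℝ))) *
        (2 * ((cnt H k k + cnt H k l / 2) * ((W.mom k / q ^ k - 1) / k) +
      (cnt H l l + cnt H k l / 2) * ((W.mom l / q ^ l - 1) / l))) := by
      have e1 : 0 ≤ W.mom k / q ^ k - 1 := by linarith
      have e2 : 0 ≤ W.mom l / q ^ l - 1 := by linarith
      positivity
    linarith

/-- **Uniqueness.** -/
theorem td_unique {k l : ℕ} (hk : 0 < k) (hkl : k < l) (hl : l ≤ 2 * k) (h : KL H k l)
    (hE : 0 < H.edgeFinset.card) {u v : V} (hu : H.degree u = k) (hv : H.degree v = l)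
    {p q : ℝ} (hp : 0 < p) (hpq : p ≤ q) (hq1 : q < 1)
    (hN : Ncond H p q) : UniqueMinimizer H p q := by
  have hq : 0 < q := lt_of_lt_of_le hp hpq
  have hp1 : p < 1 := lt_of_le_of_lt hpq hq1
  have hE' : (0:ℝ) < H.edgeFinset.card := by exact_mod_cast hE
  have hk' : (0 : ℝ) < k := by exact_mod_cast hk
  have hl' : (0 : ℝ) < l := by exact_mod_cast hk.trans hkl
  rcases Nat.lt_or_ge k 2 with h1 | hk2
  · -- maximum degree two
    have hH : ∀ v, H.degree v ≤ 2 := fun v => by
      rcases h v with h2 | h2 | h2 <;> omega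
    exact (diagram_two H hH hE hp hpq hq1).2
      ((diagram_two H hH hE hp hpq hq1).1.2 (deg_two hH hE hp hpq hq1 hN))
  rcases hpq.eq_or_lt with rfl | hlt
  · exact full_unique_self H hp hq1
  have nk := (cnt_pos hk hkl h (v := u)).1 hu
  have nl := (cnt_pos hk hkl h (v := v)).2 hv
  intro W hW hcost
  by_cases hx1 : W.mom k / q ^ k < 1
  · exact absurd hcost (not_le.2 (excess hk2 hkl hl h hE nk nl hp hpq hq1 hN W hW hx1))
  · push Not at hx1
    obtain ⟨hx0, hz0, hzx, -⟩ := feas hk hkl hl h hE hq W hW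
    have hz1 : 1 ≤ W.mom l / q ^ l :=
      (Real.one_le_rpow hx1 (by positivity)).trans hzx
    have h3 := Ncond.cost_ge hp hp1 hN W
    rw [sum_deg hk hkl h (m := fun j => W.mom j / q ^ j) (by simp [Graphon.mom])] at h3
    have h4 := logit_strictMono hp hlt hq1
    have e1 : 0 ≤ W.mom k / q ^ k - 1 := by linarith
    have e2 : 0 ≤ W.mom l / q ^ l - 1 := by linarith
    have h4' : 0 < logit q - logit p := by linarith
    have e3 : 0 ≤ (cnt H k k + cnt H k l / 2) * ((W.mom k / q ^ k - 1) / k) := by positivity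
    have e4 : 0 ≤ (cnt H l l + cnt H k l / 2) * ((W.mom l / q ^ l - 1) / l) := by positivity
    have h5 : 2 * ((cnt H k k + cnt H k l / 2) * ((W.mom k / q ^ k - 1) / k) +
      (cnt H l l + cnt H k l / 2) * ((W.mom l / q ^ l - 1) / l)) ≤ 0 := by
      by_contra hcon
      push Not at hcon
      have : 0 < (q * (logit q - logit p) / (2 * (H.edgeFinset.card : ℝ))) *
        (2 * ((cnt H k k + cnt H k l / 2) * ((W.mom k / q ^ k - 1) / k) +
      (cnt H l l + cnt H k l / 2) * ((W.mom l / q ^ l - 1) / l))) :=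
        mul_pos (by positivity) hcon
      linarith
    have h6 : W.mom k = q ^ k := by
      have h7 : (W.mom k / q ^ k - 1) / k = 0 := by
        rcases mul_eq_zero.1 (le_antisymm (by linarith) e3) with h8 | h8
        · exact absurd h8 nk.ne'
        · exact h8
      rw [div_eq_zero_iff] at h7
      rcases h7 with h7 | h7
      · have h8 : W.mom k / q ^ k = 1 := by linarith
        rwa [div_eq_one_iff_eq (by positivity)] at h8
      · exact absurd h7 hk'.ne'
    have h6' : W.mom l = q ^ l := by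
      have h7 : (W.mom l / q ^ l - 1) / l = 0 := by
        rcases mul_eq_zero.1 (le_antisymm (by linarith) e4) with h8 | h8
        · exact absurd h8 nl.ne'
        · exact h8
      rw [div_eq_zero_iff] at h7
      rcases h7 with h7 | h7
      · have h8 : W.mom l / q ^ l = 1 := by linarith
        rwa [div_eq_one_iff_eq (by positivity)] at h8
      · exact absurd h7 hl'.ne'
    exact ae_eq_of_two_moments W hq hk hkl h6 h6'

end Pool.Agent.W_bbc525_td
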