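import Mathlib

/-!
# Two degrees: functions with two double zeros
-/

set_option autoImplicit false

namespace Pool.Agent.W_bbc525_td

open Set

section

variable {g g' : ℝ → ℝ} {ω : ℝ}

theorem Shape_mono (h1 : ∀ x ∈ Ioo 0 ω, HasDerivAt g (g' x) x) {u v : ℝ} (hu : 0 < u) (hv : v < ω)
    (h : ∀ x ∈ Ioo u v, 0 ≤ g' x) {x y : ℝ} (hx : u ≤ x) (hxy : x ≤ y) (hy : y ≤ v) :
    g x ≤ g y := by
  have hs : ∀ x ∈ Icc u v, x ∈ Ioo 0 ω := fun x hx => ⟨lt_of_lt_of_le hu hx.1, lt_of_le_of_lt hx.2 hv⟩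
  have m : MonotoneOn g (Icc u v) := by
    apply monotoneOn_of_deriv_nonneg (convex_Icc u v)
    · exact fun t ht => (h1 t (hs t ht)).continuousAt.continuousWithinAt
    · intro t ht
      exact (h1 t (hs t (interior_subset ht))).differentiableAt.differentiableWithinAt
    · intro t ht
      rw [(h1 t (hs t (interior_subset ht))).deriv]
      rw [interior_Icc] at ht
      exact h t ht
  exact m ⟨hx, hxy.trans hy⟩ ⟨hx.trans hxy, hy⟩ hxy

theorem Shape_anti (h1 : ∀ x ∈ Ioo 0 ω, HasDerivAt g (g' x) x) {u v : ℝ} (hu : 0 < u) (hv : v < ω)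
    (h : ∀ x ∈ Ioo u v, g' x ≤ 0) {x y : ℝ} (hx : u ≤ x) (hxy : x ≤ y) (hy : y ≤ v) :
    g y ≤ g x := by
  have h2 := Shape_mono (g := fun x => - g x) (g' := fun x => - g' x) (ω := ω)
    (fun x hx => (h1 x hx).neg) hu hv (fun x hx => by have := h x hx; simpa using this) hx hxy hy
  linarith

end

/-- If `f''` is `≤ 0` only on an interval, and negative in its interior, then a function with two
double zeros is nonnegative. -/
theorem four_zero {f f' f'' : ℝ → ℝ} {ω : ℝ} (h1 : ∀ x ∈ Ioo 0 ω, HasDerivAt f (f' x) x)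
    (h2 : ∀ x ∈ Ioo 0 ω, HasDerivAt f' (f'' x) x)
    (hP : ∀ x y z, 0 < x → x < y → y < z → z < ω → f'' x ≤ 0 → f'' z ≤ 0 → f'' y < 0)
    {a b : ℝ} (ha : 0 < a) (hab : a < b) (hb : b < ω) (fa : f a = 0) (fa' : f' a = 0)
    (fb : f b = 0) (fb' : f' b = 0) :
    (∀ x, 0 < x → x < ω → 0 ≤ f x) ∧ (∀ x, 0 < x → x ≤ a → 0 < f'' x) ∧
      (∀ x, 0 < x → x ≤ a → f' x ≤ 0) := by
  have hs : ∀ x ∈ Icc a b, x ∈ Ioo 0 ω := fun x hx => ⟨lt_of_lt_of_le ha hx.1, lt_of_le_of_lt hx.2 hb⟩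
  obtain ⟨ξ, hξ, hfξ⟩ := exists_hasDerivAt_eq_zero hab
    (fun x hx => (h1 x (hs x hx)).continuousAt.continuousWithinAt) (fa.trans fb.symm)
    (fun x hx => h1 x (hs x (Ioo_subset_Icc_self hx)))
  obtain ⟨η, hη, hfη⟩ := exists_hasDerivAt_eq_zero (f := f') hξ.1
    (fun x hx => (h2 x (hs x ⟨hx.1, hx.2.trans hξ.2.le⟩)).continuousAt.continuousWithinAt)
    (fa'.trans hfξ.symm) (fun x hx => h2 x (hs x ⟨hx.1.le, hx.2.le.trans hξ.2.le⟩))
  obtain ⟨ζ, hζ, hfζ⟩ := exists_hasDerivAt_eq_zero (f := f') hξ.2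
    (fun x hx => (h2 x (hs x ⟨hξ.1.le.trans hx.1, hx.2⟩)).continuousAt.continuousWithinAt)
    (hfξ.trans fb'.symm) (fun x hx => h2 x (hs x ⟨hξ.1.le.trans hx.1.le, hx.2.le⟩))
  have p1 : ∀ x, 0 < x → x < η → 0 < f'' x := by
    intro x hx hx2
    by_contra hcon
    push Not at hcon
    have := hP x η ζ hx hx2 (hη.2.trans hζ.1) (hζ.2.trans hb) hcon hfζ.le
    linarith
  have p2 : ∀ x, ζ < x → x < ω → 0 < f'' x := by
    intro x hx hx2
    by_contra hcon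
    push Not at hcon
    have := hP η ζ x (ha.trans hη.1) (hη.2.trans hζ.1) hx hx2 hfη.le hcon
    linarith
  have p3 : ∀ x, η < x → x < ζ → f'' x < 0 := fun x hx hx2 =>
    hP η x ζ (ha.trans hη.1) hx hx2 (hζ.2.trans hb) hfη.le hfζ.le
  have s1 : ∀ x, 0 < x → x ≤ a → f' x ≤ 0 := by
    intro x hx hxa
    rw [← fa']
    exact Shape_mono h2 hx (hab.trans hb) (fun y hy => (p1 y (hx.trans hy.1) (hy.2.trans hη.1)).le)
      le_rfl hxa le_rfl
  have s2 : ∀ x, a ≤ x → x ≤ ξ → 0 ≤ f' x := by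
    intro x hx hxξ
    rcases le_total x η with h | h
    · rw [← fa']
      exact Shape_mono h2 ha (hη.2.trans (hξ.2.trans hb)) (fun y hy => (p1 y (ha.trans hy.1) hy.2).le)
        le_rfl hx h
    · rw [← hfξ]
      exact Shape_anti h2 (ha.trans hη.1) (hξ.2.trans hb)
        (fun y hy => (p3 y hy.1 (hy.2.trans hζ.1)).le) h hxξ le_rfl
  have s3 : ∀ x, ξ ≤ x → x ≤ b → f' x ≤ 0 := by
    intro x hx hxb
    rcases le_total x ζ with h | h
    · rw [← hfξ]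
      exact Shape_anti h2 (ha.trans hξ.1) (hζ.2.trans hb)
        (fun y hy => (p3 y (hη.2.trans hy.1) hy.2).le) le_rfl hx h
    · rw [← fb']
      exact Shape_mono h2 (ha.trans (hξ.1.trans hζ.1)) hb
        (fun y hy => (p2 y hy.1 (hy.2.trans hb)).le) h hxb le_rfl
  have s4 : ∀ x, b ≤ x → x < ω → 0 ≤ f' x := by
    intro x hx hxω
    rw [← fb']
    exact Shape_mono h2 (ha.trans hab) hxω
      (fun y hy => (p2 y (hζ.2.trans hy.1) (hy.2.trans hxω)).le) le_rfl hx le_rfl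
  refine ⟨fun x hx hxω => ?_, fun x hx hxa => p1 x hx (lt_of_le_of_lt hxa hη.1), s1⟩
  rcases le_total x a with h | h
  · rw [← fa]
    exact Shape_anti h1 hx (hab.trans hb) (fun y hy => s1 y (hx.trans hy.1) hy.2.le) le_rfl h le_rfl
  rcases le_total x ξ with h' | h'
  · rw [← fa]
    exact Shape_mono h1 ha (hξ.2.trans hb) (fun y hy => s2 y hy.1.le hy.2.le) le_rfl h h'
  rcases le_total x b with h'' | h''
  · rw [← fb]
    exact Shape_anti h1 (ha.trans hξ.1) hb (fun y hy => s3 y hy.1.le hy.2.le) h' h'' le_rfl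
  · rw [← fb]
    exact Shape_mono h1 (ha.trans hab) hxω (fun y hy => s4 y hy.1.le (hy.2.trans hxω)) le_rfl h''
      le_rfl

/-- the convex case -/
theorem convex_zero {f f' f'' : ℝ → ℝ} {ω : ℝ} (h1 : ∀ x ∈ Ioo 0 ω, HasDerivAt f (f' x) x)
    (h2 : ∀ x ∈ Ioo 0 ω, HasDerivAt f' (f'' x) x) (h : ∀ x ∈ Ioo 0 ω, 0 ≤ f'' x)
    {a : ℝ} (ha : 0 < a) (hb : a < ω) (fa : f a = 0) (fa' : f' a = 0) :
    (∀ x, 0 < x → x < ω → 0 ≤ f x) ∧ (∀ x, 0 < x → x ≤ a → f' x ≤ 0) := by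
  have s1 : ∀ x, 0 < x → x ≤ a → f' x ≤ 0 := by
    intro x hx hxa
    rw [← fa']
    exact Shape_mono h2 hx hb (fun y hy => h y ⟨hx.trans hy.1, hy.2.trans hb⟩) le_rfl hxa le_rfl
  have s4 : ∀ x, a ≤ x → x < ω → 0 ≤ f' x := by
    intro x hx hxω
    rw [← fa']
    exact Shape_mono h2 ha hxω (fun y hy => h y ⟨ha.trans hy.1, hy.2.trans hxω⟩) le_rfl hx le_rfl
  refine ⟨fun x hx hxω => ?_, s1⟩
  rcases le_total x a with h' | h'
  · rw [← fa]
    exact Shape_anti h1 hx hb (fun y hy => s1 y (hx.trans hy.1) hy.2.le) le_rfl h' le_rfl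
  · rw [← fa]
    exact Shape_mono h1 ha hxω (fun y hy => s4 y hy.1.le (hy.2.trans hxω)) le_rfl h' le_rfl

end Pool.Agent.W_bbc525_td
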