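import Mathlib

/-!
# Two degrees: convexity of `X + 1 / N(X)`
-/

set_option autoImplicit false

namespace Pool.Agent.W_bbc525_td

open Set

/-- the function `N` -/
noncomputable def nn (k n₀ n₁ n₂ X : ℝ) : ℝ :=
  - (n₀ * X ^ (k / 2 - 1)) + n₁ * X ^ (k - 1) + n₂ * X ^ (4 * k - 1)

/-- its derivative -/
noncomputable def nn' (k n₀ n₁ n₂ X : ℝ) : ℝ :=
  - (n₀ * ((k / 2 - 1) * X ^ (k / 2 - 1 - 1))) + n₁ * ((k - 1) * X ^ (k - 1 - 1)) +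
    n₂ * ((4 * k - 1) * X ^ (4 * k - 1 - 1))

/-- its second derivative -/
noncomputable def nn'' (k n₀ n₁ n₂ X : ℝ) : ℝ :=
  - (n₀ * ((k / 2 - 1) * ((k / 2 - 1 - 1) * X ^ (k / 2 - 1 - 1 - 1)))) +
    n₁ * ((k - 1) * ((k - 1 - 1) * X ^ (k - 1 - 1 - 1))) +
    n₂ * ((4 * k - 1) * ((4 * k - 1 - 1) * X ^ (4 * k - 1 - 1 - 1)))

theorem hasDerivAt_nn (k n₀ n₁ n₂ : ℝ) {X : ℝ} (hX : 0 < X) :
    HasDerivAt (nn k n₀ n₁ n₂) (nn' k n₀ n₁ n₂ X) X :=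
  ((((Real.hasDerivAt_rpow_const (Or.inl hX.ne')).const_mul n₀).neg).add
    ((Real.hasDerivAt_rpow_const (Or.inl hX.ne')).const_mul n₁)).add
    ((Real.hasDerivAt_rpow_const (Or.inl hX.ne')).const_mul n₂)

theorem hasDerivAt_nn' (k n₀ n₁ n₂ : ℝ) {X : ℝ} (hX : 0 < X) :
    HasDerivAt (nn' k n₀ n₁ n₂) (nn'' k n₀ n₁ n₂ X) X :=
  (((((Real.hasDerivAt_rpow_const (Or.inl hX.ne')).const_mul (k / 2 - 1)).const_mul n₀).neg).add
    (((Real.hasDerivAt_rpow_const (Or.inl hX.ne')).const_mul (k - 1)).const_mul n₁)).add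
    (((Real.hasDerivAt_rpow_const (Or.inl hX.ne')).const_mul (4 * k - 1)).const_mul n₂)

/-- the quadratic form -/
theorem Conv_form {k a b c : ℝ} (hk : 2 ≤ k) (ha : 0 ≤ a) (_hb : 0 < b) (hc : 0 < c) :
    0 < 2 * (- ((k / 2 - 1) * a) + (k - 1) * b + (4 * k - 1) * c) ^ 2 -
      (- a + b + c) * (- ((k / 2 - 1) * ((k / 2 - 1 - 1) * a)) + (k - 1) * ((k - 1 - 1) * b) +
        (4 * k - 1) * ((4 * k - 1 - 1) * c)) := by
  have e : (7 * k + 2) * (2 * (- ((k / 2 - 1) * a) + (k - 1) * b + (4 * k - 1) * c) ^ 2 -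
      (- a + b + c) * (- ((k / 2 - 1) * ((k / 2 - 1 - 1) * a)) + (k - 1) * ((k - 1 - 1) * b) +
        (4 * k - 1) * ((4 * k - 1 - 1) * c))) =
      k * ((7 * k + 2) * ((k - 2) / 4 * (a - 3 / 2 * b) ^ 2) +
        ((7 * k + 2) / 4 * b - 2 * (k + 5) * c) ^ 2 +
        4 * (27 * k ^ 2 - 9 * k - 27) * c ^ 2 + (7 * k + 2) * ((33 * k / 4 + 9 / 2) * (a * c))) := by
    ring
  have h1 : 0 < 27 * k ^ 2 - 9 * k - 27 := by nlinarith
  have h2 : 0 ≤ k - 2 := by linarith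
  have h3 : 0 < k * ((7 * k + 2) * ((k - 2) / 4 * (a - 3 / 2 * b) ^ 2) +
        ((7 * k + 2) / 4 * b - 2 * (k + 5) * c) ^ 2 +
        4 * (27 * k ^ 2 - 9 * k - 27) * c ^ 2 +
          (7 * k + 2) * ((33 * k / 4 + 9 / 2) * (a * c))) := by
    have hk0 : 0 < k := by linarith
    positivity
  rw [← e] at h3
  exact pos_of_mul_pos_right h3 (by linarith)

section

variable {k n₀ n₁ n₂ q : ℝ}

theorem Conv_ineq (hk : 2 ≤ k) (h0 : 0 ≤ n₀) (h1 : 0 < n₁) (h2 : 0 < n₂) {X : ℝ} (hX : 0 < X) :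
    nn k n₀ n₁ n₂ X * nn'' k n₀ n₁ n₂ X < 2 * nn' k n₀ n₁ n₂ X ^ 2 := by
  have e1 : ∀ s : ℝ, X ^ (s - 1) = X ^ s / X := fun s => Real.rpow_sub_one hX.ne' s
  have a0 : 0 < X ^ (k / 2 - 1) := Real.rpow_pos_of_pos hX _
  have a1 : 0 < X ^ (k - 1) := Real.rpow_pos_of_pos hX _
  have a2 : 0 < X ^ (4 * k - 1) := Real.rpow_pos_of_pos hX _
  have h := Conv_form hk (a := n₀ * X ^ (k / 2 - 1)) (b := n₁ * X ^ (k - 1))
    (c := n₂ * X ^ (4 * k - 1)) (by positivity) (by positivity) (by positivity)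
  unfold nn nn' nn''
  rw [e1 (k / 2 - 1 - 1), e1 (k - 1 - 1), e1 (4 * k - 1 - 1), e1 (k / 2 - 1), e1 (k - 1),
    e1 (4 * k - 1)]
  set u := X ^ (k / 2 - 1)
  set v := X ^ (k - 1)
  set w := X ^ (4 * k - 1)
  have hX2 : 0 < X ^ 2 := by positivity
  have h3 := div_pos h hX2
  have e2 : (2 * (-((k / 2 - 1) * (n₀ * u)) + (k - 1) * (n₁ * v) + (4 * k - 1) * (n₂ * w)) ^ 2 -
      (-(n₀ * u) + n₁ * v + n₂ * w) * (-((k / 2 - 1) * ((k / 2 - 1 - 1) * (n₀ * u))) +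
        (k - 1) * ((k - 1 - 1) * (n₁ * v)) + (4 * k - 1) * ((4 * k - 1 - 1) * (n₂ * w)))) / X ^ 2 =
      2 * (-(n₀ * ((k / 2 - 1) * (u / X))) + n₁ * ((k - 1) * (v / X)) +
        n₂ * ((4 * k - 1) * (w / X))) ^ 2 - (-(n₀ * u) + n₁ * v + n₂ * w) *
      (-(n₀ * ((k / 2 - 1) * ((k / 2 - 1 - 1) * (u / X / X)))) +
        n₁ * ((k - 1) * ((k - 1 - 1) * (v / X / X))) +
        n₂ * ((4 * k - 1) * ((4 * k - 1 - 1) * (w / X / X)))) := by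
    field_simp
  rw [e2] at h3
  linarith

theorem Conv_pos (hk : 2 ≤ k) (h1 : 0 < n₁) (h2 : 0 < n₂) {x w : ℝ} (hx : 0 < x)
    (hxw : x ≤ w) (h : 0 < nn k n₀ n₁ n₂ x) : 0 < nn k n₀ n₁ n₂ w := by
  have key : ∀ X : ℝ, 0 < X → nn k n₀ n₁ n₂ X =
      X ^ (k / 2 - 1) * (- n₀ + n₁ * X ^ (k / 2) + n₂ * X ^ (7 * k / 2)) := by
    intro X hX
    unfold nn
    have e1 : X ^ (k - 1) = X ^ (k / 2 - 1) * X ^ (k / 2) := by
      rw [← Real.rpow_add hX]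
      congr 1
      ring
    have e2 : X ^ (4 * k - 1) = X ^ (k / 2 - 1) * X ^ (7 * k / 2) := by
      rw [← Real.rpow_add hX]
      congr 1
      ring
    rw [e1, e2]
    ring
  have hw : 0 < w := lt_of_lt_of_le hx hxw
  rw [key x hx] at h
  rw [key w hw]
  have h3 : 0 < - n₀ + n₁ * x ^ (k / 2) + n₂ * x ^ (7 * k / 2) :=
    pos_of_mul_pos_right h (Real.rpow_nonneg hx.le _)
  have h4 : x ^ (k / 2) ≤ w ^ (k / 2) := Real.rpow_le_rpow hx.le hxw (by linarith)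
  have h5 : x ^ (7 * k / 2) ≤ w ^ (7 * k / 2) := Real.rpow_le_rpow hx.le hxw (by linarith)
  apply mul_pos (Real.rpow_pos_of_pos hw _)
  have := mul_le_mul_of_nonneg_left h4 h1.le
  have := mul_le_mul_of_nonneg_left h5 h2.le
  linarith

/-- `ξ' = 1 - N' / N ^ 2` is strictly increasing where `N > 0` -/
theorem Conv_mono (hk : 2 ≤ k) (h0 : 0 ≤ n₀) (h1 : 0 < n₁) (h2 : 0 < n₂) {x z : ℝ} (hx : 0 < x)
    (h : 0 < nn k n₀ n₁ n₂ x) :
    StrictMonoOn (fun X => 1 - nn' k n₀ n₁ n₂ X / nn k n₀ n₁ n₂ X ^ 2) (Icc x z) := by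
  have hpos : ∀ X ∈ Icc x z, 0 < X ∧ 0 < nn k n₀ n₁ n₂ X := fun X hX =>
    ⟨lt_of_lt_of_le hx hX.1, Conv_pos hk h1 h2 hx hX.1 h⟩
  have hd : ∀ X ∈ Icc x z, HasDerivAt (fun X => 1 - nn' k n₀ n₁ n₂ X / nn k n₀ n₁ n₂ X ^ 2)
      ((2 * nn' k n₀ n₁ n₂ X ^ 2 - nn k n₀ n₁ n₂ X * nn'' k n₀ n₁ n₂ X) /
        nn k n₀ n₁ n₂ X ^ 3) X := by
    intro X hX
    obtain ⟨hX0, hN⟩ := hpos X hX
    have d := ((hasDerivAt_nn' k n₀ n₁ n₂ hX0).div ((hasDerivAt_nn k n₀ n₁ n₂ hX0).pow 2)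
      (pow_ne_zero 2 hN.ne')).const_sub 1
    refine d.congr_deriv ?_
    simp only [Pi.pow_apply]
    field_simp
    ring
  apply strictMonoOn_of_deriv_pos (convex_Icc x z)
  · exact fun X hX => (hd X hX).continuousAt.continuousWithinAt
  · intro X hX
    have hX' := interior_subset hX
    rw [(hd X hX').deriv]
    obtain ⟨hX0, hN⟩ := hpos X hX'
    have := Conv_ineq hk h0 h1 h2 hX0
    exact div_pos (by linarith) (by positivity)

theorem Conv_deriv (hk : 2 ≤ k) (h1 : 0 < n₁) (h2 : 0 < n₂) {x X : ℝ} (hx : 0 < x)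
    (hxX : x ≤ X) (h : 0 < nn k n₀ n₁ n₂ x) :
    HasDerivAt (fun X => X + 1 / nn k n₀ n₁ n₂ X)
      (1 - nn' k n₀ n₁ n₂ X / nn k n₀ n₁ n₂ X ^ 2) X := by
  have hX0 : 0 < X := lt_of_lt_of_le hx hxX
  have hN := Conv_pos hk h1 h2 hx hxX h
  have d := (hasDerivAt_id X).add ((hasDerivAt_const X (1 : ℝ)).div (hasDerivAt_nn k n₀ n₁ n₂ hX0)
    hN.ne')
  refine d.congr_deriv ?_
  ring

theorem Conv_le_iff {N X : ℝ} (hq : 0 < q) (hX : 0 < 1 - q * X) (hN : 0 < N) :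
    q / (1 - q * X) ≤ N ↔ X + 1 / N ≤ 1 / q := by
  rw [div_le_iff₀ hX]
  constructor
  · intro h
    have : 1 / N ≤ (1 - q * X) / q := by
      rw [div_le_div_iff₀ hN hq]
      linarith
    have e : (1 - q * X) / q = 1 / q - X := by
      field_simp
    rw [e] at this
    linarith
  · intro h
    have e : (1 - q * X) / q = 1 / q - X := by
      field_simp
    have : 1 / N ≤ (1 - q * X) / q := by
      rw [e]
      linarith
    rw [div_le_div_iff₀ hN hq] at this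
    linarith

/-- property (P) -/
theorem conv_P (hk : 2 ≤ k) (h0 : 0 ≤ n₀) (h1 : 0 < n₁) (h2 : 0 < n₂) (hq : 0 < q) {x y z : ℝ}
    (hx : 0 < x) (hxy : x < y) (hyz : y < z) (hz : z < 1 / q)
    (hNx : q / (1 - q * x) ≤ nn k n₀ n₁ n₂ x) (hNz : q / (1 - q * z) ≤ nn k n₀ n₁ n₂ z) :
    q / (1 - q * y) < nn k n₀ n₁ n₂ y := by
  have hp : ∀ X, X ≤ z → 0 < 1 - q * X := by
    intro X hX
    have : X < 1 / q := lt_of_le_of_lt hX hz
    rw [lt_div_iff₀ hq] at this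
    linarith
  have px : 0 < nn k n₀ n₁ n₂ x :=
    lt_of_lt_of_le (div_pos hq (hp x (hxy.trans hyz).le)) hNx
  have py := Conv_pos hk h1 h2 hx hxy.le px
  have pz := Conv_pos hk h1 h2 hx (hxy.trans hyz).le px
  have g1 := (Conv_le_iff hq (hp x (hxy.trans hyz).le) px).1 hNx
  have g3 := (Conv_le_iff hq (hp z le_rfl) pz).1 hNz
  by_contra hcon
  push Not at hcon
  have g2 : 1 / q ≤ y + 1 / nn k n₀ n₁ n₂ y := by
    by_contra hc2
    push Not at hc2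
    have h3 : q / (1 - q * y) ≤ nn k n₀ n₁ n₂ y := (Conv_le_iff hq (hp y hyz.le) py).2 hc2.le
    have h4 : nn k n₀ n₁ n₂ y = q / (1 - q * y) := le_antisymm hcon h3
    rw [h4] at hc2
    have : y + 1 / (q / (1 - q * y)) = 1 / q := by
      have := (hp y hyz.le).ne'
      field_simp
      ring
    linarith
  have mono := Conv_mono hk h0 h1 h2 (z := z) hx px
  obtain ⟨c, hc, hc'⟩ := exists_hasDerivAt_eq_slope (fun X => X + 1 / nn k n₀ n₁ n₂ X)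
    (fun X => 1 - nn' k n₀ n₁ n₂ X / nn k n₀ n₁ n₂ X ^ 2) hxy
    (fun X hX => (Conv_deriv hk h1 h2 hx hX.1 px).continuousAt.continuousWithinAt)
    (fun X hX => Conv_deriv hk h1 h2 hx hX.1.le px)
  obtain ⟨d, hd, hd'⟩ := exists_hasDerivAt_eq_slope (fun X => X + 1 / nn k n₀ n₁ n₂ X)
    (fun X => 1 - nn' k n₀ n₁ n₂ X / nn k n₀ n₁ n₂ X ^ 2) hyz
    (fun X hX => (Conv_deriv hk h1 h2 hx (hxy.le.trans hX.1) px).continuousAt.continuousWithinAt)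
    (fun X hX => Conv_deriv hk h1 h2 hx (hxy.le.trans hX.1.le) px)
  have m := mono ⟨hc.1.le, hc.2.le.trans hyz.le⟩ ⟨hxy.le.trans hd.1.le, hd.2.le⟩
    (hc.2.trans hd.1)
  simp only at m hc' hd'
  rw [hc', hd'] at m
  have s1 : 0 ≤ (y + 1 / nn k n₀ n₁ n₂ y - (x + 1 / nn k n₀ n₁ n₂ x)) / (y - x) :=
    div_nonneg (by linarith) (by linarith)
  have s2 : (z + 1 / nn k n₀ n₁ n₂ z - (y + 1 / nn k n₀ n₁ n₂ y)) / (z - y) ≤ 0 :=
    div_nonpos_of_nonpos_of_nonneg (by linarith) (by linarith)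
  linarith

/-- the degenerate case -/
theorem conv_one (hk : 2 ≤ k) (h0 : 0 ≤ n₀) (h1 : 0 < n₁) (h2 : 0 < n₂) (hq : 0 < q) (hq1 : q < 1)
    (e1 : nn k n₀ n₁ n₂ 1 = q / (1 - q)) (e2 : nn' k n₀ n₁ n₂ 1 = (q / (1 - q)) ^ 2) {X : ℝ}
    (hX : 0 < X) (hX1 : X < 1 / q) : nn k n₀ n₁ n₂ X ≤ q / (1 - q * X) := by
  have hqX : 0 < 1 - q * X := by
    rw [lt_div_iff₀ hq] at hX1
    linarith
  have hq1' : 0 < 1 - q := by linarith
  rcases le_or_gt (nn k n₀ n₁ n₂ X) 0 with hN | hN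
  · exact hN.trans (div_pos hq hqX).le
  have p1 : 0 < nn k n₀ n₁ n₂ 1 := by rw [e1]; positivity
  have v1 : (1 : ℝ) + 1 / nn k n₀ n₁ n₂ 1 = 1 / q := by
    rw [e1]
    field_simp
    ring
  have s1 : 1 - nn' k n₀ n₁ n₂ 1 / nn k n₀ n₁ n₂ 1 ^ 2 = 0 := by
    rw [e1, e2]
    have : (q / (1 - q)) ^ 2 ≠ 0 := by positivity
    rw [div_self this]
    ring
  have goal : 1 / q ≤ X + 1 / nn k n₀ n₁ n₂ X → nn k n₀ n₁ n₂ X ≤ q / (1 - q * X) := by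
    intro h
    rw [le_div_iff₀ hqX]
    have e : (1 - q * X) / q = 1 / q - X := by
      field_simp
    have h3 : (1 - q * X) / q ≤ 1 / nn k n₀ n₁ n₂ X := by
      rw [e]
      linarith
    rw [div_le_div_iff₀ hq hN] at h3
    linarith
  apply goal
  rcases lt_trichotomy X 1 with h | h | h
  · have mono := Conv_mono hk h0 h1 h2 (z := 1) hX hN
    obtain ⟨c, hc, hc'⟩ := exists_hasDerivAt_eq_slope (fun X => X + 1 / nn k n₀ n₁ n₂ X)
      (fun X => 1 - nn' k n₀ n₁ n₂ X / nn k n₀ n₁ n₂ X ^ 2) h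
      (fun Y hY => (Conv_deriv hk h1 h2 hX hY.1 hN).continuousAt.continuousWithinAt)
      (fun Y hY => Conv_deriv hk h1 h2 hX hY.1.le hN)
    have m := mono ⟨hc.1.le, hc.2.le⟩ ⟨h.le, le_rfl⟩ hc.2
    simp only at m hc'
    rw [s1, hc', v1] at m
    by_contra hcon
    push Not at hcon
    have : 0 ≤ (1 / q - (X + 1 / nn k n₀ n₁ n₂ X)) / (1 - X) :=
      div_nonneg (by linarith) (by linarith)
    linarith
  · rw [h, v1]
  · have mono := Conv_mono hk h0 h1 h2 (z := X) one_pos p1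
    obtain ⟨c, hc, hc'⟩ := exists_hasDerivAt_eq_slope (fun X => X + 1 / nn k n₀ n₁ n₂ X)
      (fun X => 1 - nn' k n₀ n₁ n₂ X / nn k n₀ n₁ n₂ X ^ 2) h
      (fun Y hY => (Conv_deriv hk h1 h2 one_pos hY.1 p1).continuousAt.continuousWithinAt)
      (fun Y hY => Conv_deriv hk h1 h2 one_pos hY.1.le p1)
    have m := mono ⟨le_rfl, h.le⟩ ⟨hc.1.le, hc.2.le⟩ hc.1
    simp only at m hc'
    rw [s1, hc', v1] at m
    by_contra hcon
    push Not at hcon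
    have : (X + 1 / nn k n₀ n₁ n₂ X - 1 / q) / (X - 1) ≤ 0 :=
      div_nonpos_of_nonpos_of_nonneg (by linarith) (by linarith)
    linarith

end

end Pool.Agent.W_bbc525_td
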