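import Pool.Agent.W_bbc525_td.Base
import Pool.Agent.W_bbc525_td.Conv
import Pool.Agent.W_bbc525_td.Shape

/-!
# Two degrees: comparison of the relative entropy with the certificate
-/

set_option autoImplicit false

namespace Pool.Agent.W_bbc525_td

open Set Pool.Agent.W_MP_bbc525_pr

section

variable {κ c₀ c₁ c₂ T C q : ℝ}

/-- the difference -/
noncomputable def ff (κ c₀ c₁ c₂ T C q X : ℝ) : ℝ :=
  dd q X - c₁ * X ^ κ - c₂ * X ^ (4 * κ) + c₀ * X ^ (κ / 2) + T * X + C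

/-- its derivative -/
noncomputable def ff' (κ c₀ c₁ c₂ T q X : ℝ) : ℝ :=
  dd' q X - c₁ * (κ * X ^ (κ - 1)) - c₂ * (4 * κ * X ^ (4 * κ - 1)) +
    c₀ * (κ / 2 * X ^ (κ / 2 - 1)) + T

/-- its second derivative -/
noncomputable def ff'' (κ c₀ c₁ c₂ q X : ℝ) : ℝ :=
  (q / (1 - q * X) - nn κ (c₀ * (κ / 2 * (κ / 2 - 1))) (c₁ * (κ * (κ - 1)))
    (c₂ * (4 * κ * (4 * κ - 1))) X) / X

theorem hasDerivAt_ff (hq : 0 < q) (hq1 : q < 1) {X : ℝ} (hX : 0 < X) (hX1 : X < 1 / q) :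
    HasDerivAt (ff κ c₀ c₁ c₂ T C q) (ff' κ c₀ c₁ c₂ T q X) X := by
  have h := (((((hasDerivAt_dd hq hq1 hX hX1).sub
    ((Real.hasDerivAt_rpow_const (p := κ) (Or.inl hX.ne')).const_mul c₁)).sub
    ((Real.hasDerivAt_rpow_const (p := 4 * κ) (Or.inl hX.ne')).const_mul c₂)).add
    ((Real.hasDerivAt_rpow_const (p := κ / 2) (Or.inl hX.ne')).const_mul c₀)).add
    ((hasDerivAt_id X).const_mul T)).add_const C
  refine h.congr_deriv ?_
  unfold ff'
  rw [mul_one]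

theorem hasDerivAt_ff' (hq : 0 < q) {X : ℝ} (hX : 0 < X) (hX1 : X < 1 / q) :
    HasDerivAt (ff' κ c₀ c₁ c₂ T q) (ff'' κ c₀ c₁ c₂ q X) X := by
  have h1 := one_sub_pos hq hX1
  have h := ((((hasDerivAt_dd' hq hX hX1).sub
    (((Real.hasDerivAt_rpow_const (p := κ - 1) (Or.inl hX.ne')).const_mul κ).const_mul c₁)).sub
    (((Real.hasDerivAt_rpow_const (p := 4 * κ - 1) (Or.inl hX.ne')).const_mul (4 * κ)).const_mul
      c₂)).add
    (((Real.hasDerivAt_rpow_const (p := κ / 2 - 1) (Or.inl hX.ne')).const_mul (κ / 2)).const_mul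
      c₀)).add_const T
  refine h.congr_deriv ?_
  unfold ff'' dd'' nn
  rw [Real.rpow_sub_one hX.ne' (κ - 1), Real.rpow_sub_one hX.ne' (4 * κ - 1),
    Real.rpow_sub_one hX.ne' (κ / 2 - 1)]
  field_simp
  ring

theorem ff_nonneg (hκ : 2 ≤ κ) (h0 : 0 ≤ c₀) (h1 : 0 < c₁) (h2 : 0 < c₂) (hq : 0 < q) (hq1 : q < 1)
    {X₀ : ℝ} (hX0 : 0 < X₀) (hX1 : X₀ < 1 / q)
    (f1 : ff κ c₀ c₁ c₂ T C q 1 = 0) (f1' : ff' κ c₀ c₁ c₂ T q 1 = 0)
    (f2 : ff κ c₀ c₁ c₂ T C q X₀ = 0) (f2' : ff' κ c₀ c₁ c₂ T q X₀ = 0)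
    (hd : X₀ = 1 → nn κ (c₀ * (κ / 2 * (κ / 2 - 1))) (c₁ * (κ * (κ - 1)))
      (c₂ * (4 * κ * (4 * κ - 1))) 1 = q / (1 - q) ∧
      nn' κ (c₀ * (κ / 2 * (κ / 2 - 1))) (c₁ * (κ * (κ - 1)))
      (c₂ * (4 * κ * (4 * κ - 1))) 1 = (q / (1 - q)) ^ 2) {X : ℝ} (hX : 0 < X) (hX' : X < 1 / q) :
    0 ≤ ff κ c₀ c₁ c₂ T C q X := by
  have k0 : 0 ≤ c₀ * (κ / 2 * (κ / 2 - 1)) := by
    have : 0 ≤ κ / 2 - 1 := by linarith
    have : 0 ≤ κ / 2 := by linarith
    positivity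
  have k1 : 0 < c₁ * (κ * (κ - 1)) := by
    have : 0 < κ - 1 := by linarith
    have : 0 < κ := by linarith
    positivity
  have k2 : 0 < c₂ * (4 * κ * (4 * κ - 1)) := by
    have : 0 < 4 * κ - 1 := by linarith
    have : 0 < κ := by linarith
    positivity
  have one_lt : (1 : ℝ) < 1 / q := by
    rw [lt_div_iff₀ hq]
    linarith
  have d1 : ∀ x ∈ Ioo 0 (1 / q), HasDerivAt (ff κ c₀ c₁ c₂ T C q) (ff' κ c₀ c₁ c₂ T q x) x :=
    fun x hx => hasDerivAt_ff hq hq1 hx.1 hx.2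
  have d2 : ∀ x ∈ Ioo 0 (1 / q), HasDerivAt (ff' κ c₀ c₁ c₂ T q) (ff'' κ c₀ c₁ c₂ q x) x :=
    fun x hx => hasDerivAt_ff' hq hx.1 hx.2
  have hP : ∀ x y z, 0 < x → x < y → y < z → z < 1 / q → ff'' κ c₀ c₁ c₂ q x ≤ 0 →
      ff'' κ c₀ c₁ c₂ q z ≤ 0 → ff'' κ c₀ c₁ c₂ q y < 0 := by
    intro x y z hx hxy hyz hz g1 g2
    have hy := hx.trans hxy
    have hz0 := hy.trans hyz
    unfold ff'' at g1 g2 ⊢
    rw [div_le_iff₀ hx, zero_mul] at g1
    rw [div_le_iff₀ hz0, zero_mul] at g2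
    have := conv_P hκ k0 k1 k2 hq hx hxy hyz hz (by linarith) (by linarith)
    exact div_neg_of_neg_of_pos (by linarith) hy
  rcases lt_trichotomy X₀ 1 with h | h | h
  · exact (four_zero d1 d2 hP hX0 h one_lt f2 f2' f1 f1').1 X hX hX'
  · obtain ⟨e1, e2⟩ := hd h
    refine (convex_zero d1 d2 ?_ one_pos one_lt f1 f1').1 X hX hX'
    intro x hx
    have := conv_one hκ k0 k1 k2 hq hq1 e1 e2 hx.1 hx.2
    exact div_nonneg (by linarith) hx.1.le
  · exact (four_zero d1 d2 hP one_pos h hX1 f1 f1' f2 f2').1 X hX hX'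

end

/-- **Comparison.** -/
theorem comp {k l : ℕ} (hk : 2 ≤ k) (hkl : k < l) {a b q T X₀ B A c g : ℝ} (ha : 0 < a)
    (hb : 0 < b) (hab : a + b = 1) (hq : 0 < q) (hq1 : q < 1) (hT : 0 < T) (hX0 : 0 < X₀)
    (hX1 : X₀ < 1 / q)
    (h1 : T * (a * ps k X₀ + b * ps l X₀) = dd q X₀)
    (h2 : T * (a * (X₀ ^ k - X₀) + b * (X₀ ^ l - X₀)) = X₀ * dd' q X₀)
    (h3 : X₀ = 1 → T * (a * (k - 1) + b * (l - 1)) = q / (1 - q) ∧
      T * (a * (k - 1) ^ 2 + b * (l - 1) ^ 2) = (q / (1 - q)) ^ 2)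
    (hB : 0 < B) (hA : 0 < A) (hc : 0 ≤ c)
    (g1 : B - 1 + A - c + g = 0) (g2 : 8 * B - 2 * l / k + 2 * A - c = 0)
    (g3 : B * X₀ ^ (4 * k) - X₀ ^ l + A * X₀ ^ k - c * X₀ ^ ((k : ℝ) / 2) + g = 0)
    (g4 : 8 * B * X₀ ^ (4 * k) - 2 * l / k * X₀ ^ l + 2 * A * X₀ ^ k -
      c * X₀ ^ ((k : ℝ) / 2) = 0)
    (g5 : X₀ = 1 → 56 * B - 2 * l / k * (2 * l / k - 1) + 2 * A = 0 ∧
      336 * B = 2 * l / k * (2 * l / k - 1) * (2 * l / k - 2)) :
    ∀ X, 0 ≤ X → X ≤ 1 / q → T * (a * ps k X + b * ps l X) +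
      T * b / l * (B * X ^ (4 * k) - X ^ l + A * X ^ k - c * X ^ ((k : ℝ) / 2) + g) ≤ dd q X := by
  have hk0 : (0 : ℝ) < k := by exact_mod_cast (by omega : 0 < k)
  have hl0 : (0 : ℝ) < l := by exact_mod_cast (by omega : 0 < l)
  have hk2 : (2 : ℝ) ≤ k := by exact_mod_cast hk
  have hla : b = 1 - a := by linarith
  set c₀ : ℝ := T * b / l * c with hc0
  set c₁ : ℝ := T * a / k + T * b / l * A with hc1
  set c₂ : ℝ := T * b / l * B with hc2
  set C : ℝ := T * (a / k + b / l) - T - T * b / l * g with hC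
  have p0 : 0 ≤ c₀ := by positivity
  have p1 : 0 < c₁ := by positivity
  have p2 : 0 < c₂ := by positivity
  have key : ∀ X : ℝ, ff k c₀ c₁ c₂ T C q X = dd q X - (T * (a * ps k X + b * ps l X) +
      T * b / l * (B * X ^ (4 * k) - X ^ l + A * X ^ k - c * X ^ ((k : ℝ) / 2) + g)) := by
    intro X
    have e1 : X ^ (k : ℝ) = X ^ k := Real.rpow_natCast X k
    have e2 : X ^ (4 * (k : ℝ)) = X ^ (4 * k) := by
      rw [← Real.rpow_natCast X (4 * k)]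
      congr 1
      push_cast
      ring
    unfold ff ps
    rw [e1, e2, hc0, hc1, hc2, hC, hla]
    field_simp
    ring
  have key' : ∀ X : ℝ, 0 < X → X * ff' k c₀ c₁ c₂ T q X = (X * dd' q X -
      T * (a * (X ^ k - X) + b * (X ^ l - X))) - T * b / l * (k / 2) *
        (8 * B * X ^ (4 * k) - 2 * l / k * X ^ l + 2 * A * X ^ k - c * X ^ ((k : ℝ) / 2)) := by
    intro X hX
    have e1 : X ^ ((k : ℝ) - 1) = X ^ k / X := by
      rw [Real.rpow_sub_one hX.ne', Real.rpow_natCast]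
    have e2 : X ^ (4 * (k : ℝ) - 1) = X ^ (4 * k) / X := by
      rw [Real.rpow_sub_one hX.ne', ← Real.rpow_natCast X (4 * k)]
      push_cast
      ring
    have e3 : X ^ ((k : ℝ) / 2 - 1) = X ^ ((k : ℝ) / 2) / X := Real.rpow_sub_one hX.ne' _
    unfold ff'
    rw [e1, e2, e3, hc0, hc1, hc2, hla]
    field_simp
    ring
  have hne : ∀ X : ℝ, 0 < X → X * ff' k c₀ c₁ c₂ T q X = 0 → ff' k c₀ c₁ c₂ T q X = 0 :=
    fun X hX h => (mul_eq_zero.1 h).resolve_left hX.ne'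
  have f1 : ff k c₀ c₁ c₂ T C q 1 = 0 := by
    rw [key, dd_one hq hq1, ps_one, ps_one, one_pow, one_pow, one_pow, Real.one_rpow]
    linear_combination - (T * b / l) * g1
  have f1' : ff' k c₀ c₁ c₂ T q 1 = 0 := by
    apply hne 1 one_pos
    rw [key' 1 one_pos, dd'_one, one_pow, one_pow, one_pow, Real.one_rpow]
    linear_combination - (T * b / l * (k / 2)) * g2
  have f2 : ff k c₀ c₁ c₂ T C q X₀ = 0 := by
    rw [key, g3, h1]
    ring
  have f2' : ff' k c₀ c₁ c₂ T q X₀ = 0 := by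
    apply hne X₀ hX0
    rw [key' X₀ hX0, g4, h2]
    ring
  have hd : X₀ = 1 → nn k (c₀ * (k / 2 * (k / 2 - 1))) (c₁ * (k * (k - 1)))
      (c₂ * (4 * k * (4 * k - 1))) 1 = q / (1 - q) ∧
      nn' k (c₀ * (k / 2 * (k / 2 - 1))) (c₁ * (k * (k - 1)))
      (c₂ * (4 * k * (4 * k - 1))) 1 = (q / (1 - q)) ^ 2 := by
    intro h
    obtain ⟨i1, i2⟩ := h3 h
    obtain ⟨j1, j2⟩ := g5 h
    have s1 : 4 * k * (4 * k - 1) * B + k * (k - 1) * A - k / 2 * (k / 2 - 1) * c =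
        l * ((l : ℝ) - 1) := by
      have : 4 * k * (4 * k - 1) * B + k * (k - 1) * A - k / 2 * (k / 2 - 1) * c -
        l * ((l : ℝ) - 1) = (k : ℝ) ^ 2 / 4 *
          (56 * B - 2 * l / k * (2 * l / k - 1) + 2 * A) + k / 2 * (k / 2 - 1) *
            (8 * B - 2 * l / k + 2 * A - c) := by
        field_simp
        ring
      rw [j1, g2] at this
      linarith
    have s2 : 4 * k * (4 * k - 1) ^ 2 * B + k * (k - 1) ^ 2 * A - k / 2 * (k / 2 - 1) ^ 2 * c =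
        l * ((l : ℝ) - 1) ^ 2 := by
      have : 4 * k * (4 * k - 1) ^ 2 * B + k * (k - 1) ^ 2 * A - k / 2 * (k / 2 - 1) ^ 2 * c -
        l * ((l : ℝ) - 1) ^ 2 = (k : ℝ) ^ 3 / 8 *
          (336 * B - 2 * l / k * (2 * l / k - 1) * (2 * l / k - 2)) +
          (3 * (k : ℝ) ^ 3 / 8 - 2 * (k : ℝ) ^ 2 / 4) *
          (56 * B - 2 * l / k * (2 * l / k - 1) + 2 * A) +
          ((k : ℝ) ^ 3 / 8 - 2 * (k : ℝ) ^ 2 / 4 + k / 2) *
            (8 * B - 2 * l / k + 2 * A - c) := by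
        field_simp
        ring
      rw [j1, g2, j2] at this
      linarith
    constructor
    · rw [← i1]
      unfold nn
      rw [Real.one_rpow, Real.one_rpow, Real.one_rpow, hc0, hc1, hc2]
      have : -(T * b / l * c * (k / 2 * (k / 2 - 1)) * 1) +
          (T * a / k + T * b / l * A) * (k * (k - 1)) * 1 +
          T * b / l * B * (4 * k * (4 * k - 1)) * 1 = T * a * (k - 1) + T * b / l *
          (4 * k * (4 * k - 1) * B + k * (k - 1) * A - k / 2 * (k / 2 - 1) * c) := by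
        field_simp
        ring
      rw [this, s1]
      field_simp
    · rw [← i2]
      unfold nn'
      rw [Real.one_rpow, Real.one_rpow, Real.one_rpow, hc0, hc1, hc2]
      have : -(T * b / l * c * (k / 2 * (k / 2 - 1)) * ((k / 2 - 1) * 1)) +
          (T * a / k + T * b / l * A) * (k * (k - 1)) * ((k - 1) * 1) +
          T * b / l * B * (4 * k * (4 * k - 1)) * ((4 * k - 1) * 1) =
          T * a * (k - 1) ^ 2 + T * b / l *
          (4 * k * (4 * k - 1) ^ 2 * B + k * (k - 1) ^ 2 * A - k / 2 * (k / 2 - 1) ^ 2 * c) := by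
        field_simp
        ring
      rw [this, s2]
      field_simp
  have main : ∀ X, 0 < X → X < 1 / q → 0 ≤ ff k c₀ c₁ c₂ T C q X := fun X hX hX' =>
    ff_nonneg hk2 p0 p1 p2 hq hq1 hX0 hX1 f1 f1' f2 f2' hd hX hX'
  have hcont : ContinuousOn (ff k c₀ c₁ c₂ T C q) (Icc 0 (1 / q)) := by
    have r1 : ∀ s : ℝ, 0 ≤ s → Continuous (fun X : ℝ => X ^ s) := fun s hs =>
      Real.continuous_rpow_const hs
    unfold ff
    have c1 : Continuous fun X : ℝ => X ^ (k : ℝ) := r1 _ (by positivity)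
    have c2 : Continuous fun X : ℝ => X ^ (4 * (k : ℝ)) := r1 _ (by positivity)
    have c3 : Continuous fun X : ℝ => X ^ ((k : ℝ) / 2) := r1 _ (by positivity)
    exact ((((continuousOn_dd hq hq1).sub (continuous_const.mul c1).continuousOn).sub
      (continuous_const.mul c2).continuousOn).add (continuous_const.mul c3).continuousOn).add
      (continuous_const.mul continuous_id).continuousOn |>.add continuousOn_const
  intro X hX hX'
  have hq' : (0 : ℝ) < 1 / q := by positivity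
  have hXc : X ∈ closure (Ioo 0 (1 / q)) := by
    rw [closure_Ioo hq'.ne]
    exact ⟨hX, hX'⟩
  have := ((hcont X ⟨hX, hX'⟩).mono Ioo_subset_Icc_self).mem_closure hXc
    (t := Ici 0) (fun Y hY => main Y hY.1 hY.2)
  rw [isClosed_Ici.closure_eq, mem_Ici, key] at this
  linarith

end Pool.Agent.W_bbc525_td
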