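import Mathlib

/-!
# Two degrees: the polynomial inequality
-/

set_option autoImplicit false

namespace Pool.Agent.W_bbc525_td

/-- `p(β)` -/
def pp (β : ℝ) : ℝ := 3 + 2 * β + 4 * β ^ 2 + 2 * β ^ 3 + 3 * β ^ 4

/-- the quartic factor -/
def QQ (β r : ℝ) : ℝ := r ^ 4 + 2 * (1 + β) * r ^ 3 + (3 + 4 * β + 3 * β ^ 2) * r ^ 2 +
  (4 + 6 * β + 6 * β ^ 2 + 4 * β ^ 3) * r + (2 + 6 * β + 5 * β ^ 2 + 6 * β ^ 3 + 2 * β ^ 4)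

/-- coefficient of `r ^ 2` -/
def aa (β : ℝ) : ℝ := 2 + 6 * β + 14 * β ^ 2 + 12 * β ^ 3 + 14 * β ^ 4 + 6 * β ^ 5 + 2 * β ^ 6

/-- coefficient of `- r` -/
def cc (β : ℝ) : ℝ := 4 * β * (1 + β) ^ 3 * (1 + β ^ 2)

/-- constant coefficient -/
def ee (β : ℝ) : ℝ := β ^ 2 * (2 + 6 * β + 5 * β ^ 2 + 6 * β ^ 3 + 2 * β ^ 4)

theorem pp_pos {β : ℝ} (hβ : 0 ≤ β) : 0 < pp β := by
  unfold pp
  positivity

theorem aa_pos {β : ℝ} (hβ : 0 ≤ β) : 0 < aa β := by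
  unfold aa
  positivity

theorem cc_nonneg {β : ℝ} (hβ : 0 ≤ β) : 0 ≤ cc β := by
  unfold cc
  positivity

theorem QQ_expand (β r : ℝ) : (r - 1) ^ 2 * (r - β) ^ 2 * QQ β r =
    r ^ 8 - pp β * r ^ 4 + aa β * r ^ 2 - cc β * r + ee β := by
  unfold QQ pp aa cc ee
  ring

theorem QQ_ge {β r : ℝ} (hβ : 0 ≤ β) (hr : 0 ≤ r) :
    2 * pp β * (r + β) ^ 2 ≤ 3 * (1 + β ^ 2) * QQ β r := by
  have : 3 * (1 + β ^ 2) * QQ β r - 2 * pp β * (r + β) ^ 2 =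
      3 * (1 + β ^ 2) * r ^ 4 + 6 * (1 + β) * (1 + β ^ 2) * r ^ 3 +
      (3 + 8 * β + 10 * β ^ 2 + 8 * β ^ 3 + 3 * β ^ 4) * r ^ 2 +
      (12 + 6 * β + 22 * β ^ 2 + 14 * β ^ 3 + 10 * β ^ 4) * r +
      (6 + 18 * β + 15 * β ^ 2 + 32 * β ^ 3 + 13 * β ^ 4 + 14 * β ^ 5) := by
    unfold QQ pp
    ring
  have h2 : 0 ≤ 3 * (1 + β ^ 2) * QQ β r - 2 * pp β * (r + β) ^ 2 := by
    rw [this]
    positivity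
  linarith

theorem poly_ineq {β r : ℝ} (hβ : 0 ≤ β) (hr : 0 ≤ r) :
    ((r ^ 2 - 1) * (r ^ 2 - β ^ 2)) ^ 2 * pp β ≤
      3 * (1 + β ^ 2) * (1 + r ^ 2) * ((r - 1) ^ 2 * (r - β) ^ 2 * QQ β r) := by
  have h1 := QQ_ge hβ hr
  have h2 : (1 + r) ^ 2 ≤ 2 * (1 + r ^ 2) := by nlinarith [sq_nonneg (1 - r)]
  have h3 : ((r ^ 2 - 1) * (r ^ 2 - β ^ 2)) ^ 2 * pp β =
      ((r - 1) ^ 2 * (r - β) ^ 2) * ((1 + r) ^ 2 * (pp β * (r + β) ^ 2)) := by ring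
  have h4 : 3 * (1 + β ^ 2) * (1 + r ^ 2) * ((r - 1) ^ 2 * (r - β) ^ 2 * QQ β r) =
      ((r - 1) ^ 2 * (r - β) ^ 2) * ((1 + r ^ 2) * (3 * (1 + β ^ 2) * QQ β r)) := by ring
  rw [h3, h4]
  apply mul_le_mul_of_nonneg_left _ (by positivity)
  have h5 : 0 ≤ pp β * (r + β) ^ 2 := mul_nonneg (pp_pos hβ).le (sq_nonneg _)
  calc (1 + r) ^ 2 * (pp β * (r + β) ^ 2) ≤ 2 * (1 + r ^ 2) * (pp β * (r + β) ^ 2) :=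
        mul_le_mul_of_nonneg_right h2 h5
    _ = (1 + r ^ 2) * (2 * pp β * (r + β) ^ 2) := by ring
    _ ≤ (1 + r ^ 2) * (3 * (1 + β ^ 2) * QQ β r) := mul_le_mul_of_nonneg_left h1 (by positivity)

end Pool.Agent.W_bbc525_td
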