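import Pool.Agent.W_bbc525_td.Herm
import Pool.Agent.W_bbc525_td.Poly

/-!
# Two degrees: the certificate in the variable `r = X ^ (k / 2)`
-/

set_option autoImplicit false

namespace Pool.Agent.W_bbc525_td

open Set Filter Topology

theorem Alg_out {S : Set ℝ} {h : ℝ → ℝ} (hc : ConvexOn ℝ S h) {x y z : ℝ} (hx : x ∈ S)
    (hz : z ∈ S) (hxy : x ≤ y) (hyz : y < z) (h1 : h y = 0) (h2 : h z = 0) : 0 ≤ h x := by
  rcases hxy.eq_or_lt with rfl | hxy'
  · exact h1.ge
  have hxz : 0 < z - x := by linarith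
  have := hc.2 hx hz (div_nonneg (sub_nonneg.2 hyz.le) hxz.le)
    (div_nonneg (sub_nonneg.2 hxy) hxz.le) (by
      field_simp
      ring)
  have e : ((z - y) / (z - x)) • x + ((y - x) / (z - x)) • z = y := by
    simp only [smul_eq_mul]
    field_simp
    ring
  rw [e, h1, h2] at this
  simp only [smul_eq_mul, mul_zero, add_zero] at this
  exact nonneg_of_mul_nonneg_right this (div_pos (by linarith) hxz)

theorem Alg_out' {S : Set ℝ} {h : ℝ → ℝ} (hc : ConvexOn ℝ S h) {x y z : ℝ} (hx : x ∈ S)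
    (hz : z ∈ S) (hxy : x < y) (hyz : y ≤ z) (h1 : h x = 0) (h2 : h y = 0) : 0 ≤ h z := by
  rcases hyz.eq_or_lt with rfl | hyz'
  · exact h2.ge
  have hxz : 0 < z - x := by linarith
  have := hc.2 hx hz (div_nonneg (sub_nonneg.2 hyz) hxz.le)
    (div_nonneg (sub_nonneg.2 hxy.le) hxz.le) (by
      field_simp
      ring)
  have e : ((z - y) / (z - x)) • x + ((y - x) / (z - x)) • z = y := by
    simp only [smul_eq_mul]
    field_simp
    ring
  rw [e, h1, h2] at this
  simp only [smul_eq_mul, mul_zero, zero_add] at this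
  exact nonneg_of_mul_nonneg_right this (div_pos (by linarith) hxz)

theorem Alg_in {S : Set ℝ} {h : ℝ → ℝ} (hc : ConvexOn ℝ S h) {x y z : ℝ} (hx : x ∈ S)
    (hz : z ∈ S) (hxy : x ≤ y) (hyz : y ≤ z) (h1 : h x = 0) (h2 : h z = 0) : h y ≤ 0 := by
  rcases hxy.eq_or_lt with rfl | hxy'
  · exact h1.le
  have hxz : 0 < z - x := by linarith
  have := hc.2 hx hz (div_nonneg (sub_nonneg.2 hyz) hxz.le)
    (div_nonneg (sub_nonneg.2 hxy) hxz.le) (by
      field_simp
      ring)
  have e : ((z - y) / (z - x)) • x + ((y - x) / (z - x)) • z = y := by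
    simp only [smul_eq_mul]
    field_simp
    ring
  rw [e, h1, h2] at this
  simpa using this

section

variable {L β : ℝ}

theorem Alg_kd (hL : 2 < L) (hβ : 0 < β) : kap L β = 1 + β ^ 2 * del L β := by
  unfold kap del
  by_cases h : β = 1
  · rw [if_pos h, if_pos h, h]
    ring
  · rw [if_neg h, if_neg h, rpow_L (L := L) hβ]
    have a4 : 1 - β ^ 2 ≠ 0 := by
      intro hcon
      have : (1 - β) * (1 + β) = 0 := by linarith
      rcases mul_eq_zero.1 this with h' | h'
      · exact h (by linarith)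
      · linarith
    field_simp
    ring

theorem Alg_sq {r p : ℝ} (hr : 0 ≤ r) (hp : 0 < p) : (r ^ p) ^ (2 / p) = r ^ 2 := by
  rw [← Real.rpow_mul hr, mul_div_cancel₀ _ hp.ne']
  norm_num

theorem Alg_half {r : ℝ} (hr : 0 ≤ r) : (r ^ 2) ^ (L / 2) = r ^ L := by
  have : r ^ 2 = r ^ (2 : ℝ) := by norm_num
  rw [this, ← Real.rpow_mul hr]
  congr 1
  ring

/-- the chord -/
theorem Alg_chord (hL : 2 < L) (hβ : 0 < β) {r : ℝ} (hr : 0 ≤ r)
    (h : (r ^ 2 - 1) * (r ^ 2 - β ^ 2) ≤ 0) : r ^ L - 1 - kap L β * (r ^ 2 - 1) ≤ 0 := by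
  have hc : ConvexOn ℝ (Ici (0 : ℝ)) (fun u : ℝ => u ^ (L / 2) - 1 - kap L β * (u - 1)) := by
    have c1 := convexOn_rpow (by linarith : 1 ≤ L / 2)
    refine ⟨convex_Ici 0, fun s hs t ht a b ha hb hab => ?_⟩
    have := c1.2 hs ht ha hb hab
    simp only [smul_eq_mul] at this ⊢
    have e : kap L β = a * kap L β + b * kap L β := by rw [← add_mul, hab, one_mul]
    nlinarith
  have z1 : (1 : ℝ) ^ (L / 2) - 1 - kap L β * (1 - 1) = 0 := by
    rw [Real.one_rpow]
    ring
  rw [← Alg_half (L := L) hr]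
  by_cases hb : β = 1
  · subst hb
    have h2 : (r ^ 2 - 1) ^ 2 ≤ 0 := by nlinarith
    have h3 : r ^ 2 - 1 = 0 := by
      have := le_antisymm h2 (sq_nonneg _)
      exact pow_eq_zero_iff (two_ne_zero) |>.1 this
    have h4 : r ^ 2 = 1 := by linarith
    rw [h4, Real.one_rpow]
    simp
  · have z2 : (β ^ 2) ^ (L / 2) - 1 - kap L β * (β ^ 2 - 1) = 0 := by
      rw [Alg_half hβ.le]
      unfold kap
      rw [if_neg hb]
      have a4 : 1 - β ^ 2 ≠ 0 := by
        intro hcon
        have : (1 - β) * (1 + β) = 0 := by linarith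
        rcases mul_eq_zero.1 this with h' | h'
        · exact hb (by linarith)
        · linarith
      field_simp
      ring
    rcases lt_or_gt_of_ne hb with h' | h'
    · have hb2 : β ^ 2 < 1 := by nlinarith
      have i1 : β ^ 2 ≤ r ^ 2 := by
        by_contra hcon
        push Not at hcon
        have : 0 < (r ^ 2 - 1) * (r ^ 2 - β ^ 2) :=
          mul_pos_of_neg_of_neg (by linarith) (by linarith)
        linarith
      have i2 : r ^ 2 ≤ 1 := by
        by_contra hcon
        push Not at hcon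
        have : 0 < (r ^ 2 - 1) * (r ^ 2 - β ^ 2) := mul_pos (by linarith) (by linarith)
        linarith
      exact Alg_in hc (sq_nonneg β) (mem_Ici.2 zero_le_one) i1 i2 z2 z1
    · have hb2 : 1 < β ^ 2 := by nlinarith
      have i1 : r ^ 2 ≤ β ^ 2 := by
        by_contra hcon
        push Not at hcon
        have : 0 < (r ^ 2 - 1) * (r ^ 2 - β ^ 2) := mul_pos (by linarith) (by linarith)
        linarith
      have i2 : 1 ≤ r ^ 2 := by
        by_contra hcon
        push Not at hcon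
        have : 0 < (r ^ 2 - 1) * (r ^ 2 - β ^ 2) :=
          mul_pos_of_neg_of_neg (by linarith) (by linarith)
        linarith
      exact Alg_in hc (mem_Ici.2 zero_le_one) (sq_nonneg β) i2 i1 z1 z2

/-- outside -/
theorem Alg_outside (hL : 2 < L) (hL4 : L ≤ 4) (hβ : 0 < β) {r : ℝ} (hr : 0 ≤ r)
    (h : 0 ≤ (r ^ 2 - 1) * (r ^ 2 - β ^ 2)) :
    r ^ L - 1 - kap L β * (r ^ 2 - 1) ≤ del L β * ((r ^ 2 - 1) * (r ^ 2 - β ^ 2)) := by
  have hp : 0 < L - 2 := by linarith
  have hd := del_pos hL hβ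
  have hkd := Alg_kd hL hβ
  rcases hr.eq_or_lt with rfl | hr'
  · rw [Real.zero_rpow (by linarith), hkd]
    nlinarith
  set C : ℝ := kap L β - del L β * (1 + β ^ 2) with hC
  have key : ∀ x : ℝ, 0 < x → del L β * ((x ^ 2 - 1) * (x ^ 2 - β ^ 2)) -
      (x ^ L - 1 - kap L β * (x ^ 2 - 1)) =
      x ^ 2 * (del L β * (x ^ (L - 2)) ^ (2 / (L - 2)) - x ^ (L - 2) + C) := by
    intro x hx
    rw [Alg_sq hx.le hp, rpow_L (L := L) hx, hC]
    have : kap L β - 1 - β ^ 2 * del L β = 0 := by rw [hkd]; ring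
    linear_combination - this
  have hc : ConvexOn ℝ (Ici (0 : ℝ)) (fun s : ℝ => del L β * s ^ (2 / (L - 2)) - s + C) := by
    have c1 := convexOn_rpow (p := 2 / (L - 2)) (by
      rw [le_div_iff₀ hp]
      linarith)
    refine ⟨convex_Ici 0, fun s hs t ht a b ha hb hab => ?_⟩
    have := c1.2 hs ht ha hb hab
    simp only [smul_eq_mul] at this ⊢
    have h1 := mul_le_mul_of_nonneg_left this hd.le
    have e : C = a * C + b * C := by rw [← add_mul, hab, one_mul]
    nlinarith
  have goal : 0 ≤ del L β * (r ^ (L - 2)) ^ (2 / (L - 2)) - r ^ (L - 2) + C := by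
    have z1 : del L β * (1 : ℝ) ^ (2 / (L - 2)) - 1 + C = 0 := by
      rw [Real.one_rpow, hC, hkd]
      ring
    by_cases hb : β = 1
    · have hs : 0 < r ^ (L - 2) := Real.rpow_pos_of_pos hr' _
      have hB := one_add_mul_self_le_rpow_one_add (s := r ^ (L - 2) - 1) (by linarith)
        (p := 2 / (L - 2)) (by
          rw [le_div_iff₀ hp]
          linarith)
      have e : (1 + (r ^ (L - 2) - 1)) = r ^ (L - 2) := by ring
      rw [e] at hB
      have h1 := mul_le_mul_of_nonneg_left hB hd.le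
      have e2 : del L β * (2 / (L - 2)) = 1 := by
        unfold del
        rw [if_pos hb]
        field_simp
      rw [Real.one_rpow] at z1
      have e3 : del L β * (1 + 2 / (L - 2) * (r ^ (L - 2) - 1)) =
          del L β + (r ^ (L - 2) - 1) := by
        rw [mul_add, ← mul_assoc, e2]
        ring
      rw [e3] at h1
      linarith
    · have z2 : del L β * (β ^ (L - 2)) ^ (2 / (L - 2)) - β ^ (L - 2) + C = 0 := by
        rw [Alg_sq hβ.le hp, hC, hkd]
        unfold del
        rw [if_neg hb]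
        have a4 : 1 - β ^ 2 ≠ 0 := by
          intro hcon
          have : (1 - β) * (1 + β) = 0 := by linarith
          rcases mul_eq_zero.1 this with h' | h'
          · exact hb (by linarith)
          · linarith
        field_simp
        ring
      have hsr : r ^ (L - 2) ∈ Ici (0 : ℝ) := Real.rpow_nonneg hr _
      have hsb : β ^ (L - 2) ∈ Ici (0 : ℝ) := Real.rpow_nonneg hβ.le _
      rcases lt_or_gt_of_ne hb with h' | h'
      · have hb2 : β ^ 2 < 1 := by nlinarith
        have hb3 : β ^ (L - 2) < 1 := Real.rpow_lt_one hβ.le h' hp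
        rcases le_total r β with g | g
        · exact Alg_out hc hsr (mem_Ici.2 zero_le_one) (Real.rpow_le_rpow hr g hp.le) hb3 z2 z1
        · rcases lt_or_ge r 1 with g' | g'
          · rcases g.eq_or_lt with rfl | g''
            · exact z2.ge
            · exfalso
              have : (r ^ 2 - 1) * (r ^ 2 - β ^ 2) < 0 :=
                mul_neg_of_neg_of_pos (by nlinarith) (by nlinarith)
              linarith
          · exact Alg_out' hc hsb hsr hb3 (Real.one_le_rpow g' hp.le) z2 z1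
      · have hb2 : 1 < β ^ 2 := by nlinarith
        have hb3 : 1 < β ^ (L - 2) := Real.one_lt_rpow h' hp
        rcases le_total r 1 with g | g
        · exact Alg_out hc hsr hsb (Real.rpow_le_one hr g hp.le) hb3 z1 z2
        · rcases lt_or_ge r β with g' | g'
          · rcases g.eq_or_lt with rfl | g''
            · rw [Real.one_rpow]
              exact z1.ge
            · exfalso
              have : (r ^ 2 - 1) * (r ^ 2 - β ^ 2) < 0 :=
                mul_neg_of_pos_of_neg (by nlinarith) (by nlinarith)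
              linarith
          · exact Alg_out' hc (mem_Ici.2 zero_le_one) hsr hb3 (Real.rpow_le_rpow hβ.le g' hp.le) z1 z2
  have h2 := key r hr'
  have h3 : 0 ≤ r ^ 2 * (del L β * (r ^ (L - 2)) ^ (2 / (L - 2)) - r ^ (L - 2) + C) :=
    mul_nonneg (sq_nonneg r) goal
  linarith

end

/-- **The certificate.** -/
theorem alg {L β : ℝ} (hL : 2 < L) (hL4 : L ≤ 4) (hβ : 0 < β) :
    ∃ B A c g K κ : ℝ, 0 < B ∧ 0 < A ∧ 0 ≤ c ∧ 0 < K ∧ 0 < κ ∧ L / 2 - 1 < 4 * κ * K ∧
      B - 1 + A - c + g = 0 ∧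
      8 * B - L + 2 * A - c = 0 ∧
      B * β ^ 8 - β ^ L + A * β ^ 2 - c * β + g = 0 ∧
      8 * B * β ^ 8 - L * β ^ L + 2 * A * β ^ 2 - c * β = 0 ∧
      (β = 1 → 56 * B - L * (L - 1) + 2 * A = 0 ∧ 336 * B = L * (L - 1) * (L - 2)) ∧
      ∀ r t, 0 ≤ r → 0 ≤ t →
        K * (2 * t * (r ^ L - 1 - κ * (r ^ 2 - 1)) - t ^ 2 * (1 + r ^ 2)) ≤
          B * r ^ 8 - r ^ L + A * r ^ 2 - c * r + g := by
  obtain ⟨A', c', g', hA', hc', e1, e2, e3, e4, e5, hE⟩ := herm hL hL4 hβ
  have hlm := lam_pos hL hL4 hβ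
  have hkap := kap_pos hL hβ
  have hdel := del_pos hL hβ
  have hineq := lam_ineq hL hL4 hβ
  have hpp := pp_pos hβ.le
  set lm := lam L β
  set κ := kap L β with hκ
  set Δ := del L β with hΔ
  set ρ := lm / pp β with hρ
  have hρ0 : 0 < ρ := div_pos hlm hpp
  have hρp : ρ * pp β = lm := div_mul_cancel₀ _ hpp.ne'
  have x1 : 1 - pp β + aa β - cc β + ee β = 0 := by
    unfold pp aa cc ee
    ring
  have x2 : 8 - 4 * pp β + 2 * aa β - cc β = 0 := by
    unfold pp aa cc
    ring
  have x3 : β ^ 8 - pp β * β ^ 4 + aa β * β ^ 2 - cc β * β + ee β = 0 := by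
    unfold pp aa cc ee
    ring
  have x4 : 8 * β ^ 8 - 4 * pp β * β ^ 4 + 2 * aa β * β ^ 2 - cc β * β = 0 := by
    unfold pp aa cc
    ring
  refine ⟨ρ, A' + ρ * aa β, c' + ρ * cc β, g' + ρ * ee β, lm / (3 * (1 + β ^ 2) * Δ ^ 2), κ,
    hρ0, ?_, ?_, by positivity, hkap, ?_, ?_, ?_, ?_, ?_, ?_, ?_⟩
  · have := mul_pos hρ0 (aa_pos hβ.le)
    linarith
  · have := mul_nonneg hρ0.le (cc_nonneg hβ.le)
    linarith
  · rw [← mul_div_assoc, lt_div_iff₀ (by positivity)]
    linarith
  · linear_combination e1 + ρ * x1 + hρp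
  · linear_combination e2 + ρ * x2 + 4 * hρp
  · linear_combination e3 + ρ * x3 + β ^ 4 * hρp
  · linear_combination e4 + ρ * x4 + 4 * β ^ 4 * hρp
  · intro hb
    obtain ⟨e6, e7⟩ := e5 hb
    have hp1 : pp β = 14 := by
      unfold pp
      rw [hb]
      norm_num
    have ha1 : aa β = 56 := by
      unfold aa
      rw [hb]
      norm_num
    rw [hp1] at hρp
    rw [ha1]
    constructor
    · linear_combination e6 + 12 * hρp
    · linear_combination e7 + 24 * hρp
  · intro r t hr ht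
    have h1 := hE r hr
    have h2 := poly_ineq hβ.le hr
    rw [QQ_expand] at h2
    have hD : 0 < 3 * (1 + β ^ 2) := by positivity
    have hR : 0 < 1 + r ^ 2 := by positivity
    set φ := (r ^ 2 - 1) * (r ^ 2 - β ^ 2) with hφ
    set P := r ^ 8 - pp β * r ^ 4 + aa β * r ^ 2 - cc β * r + ee β with hP
    -- lower bound of the right side
    have h3 : ρ * r ^ 8 - r ^ L + (A' + ρ * aa β) * r ^ 2 - (c' + ρ * cc β) * r + (g' + ρ * ee β) =
        (lm * r ^ 4 - r ^ L + A' * r ^ 2 - c' * r + g') + ρ * P := by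
      rw [hP]
      linear_combination r ^ 4 * hρp
    have h4 : lm * φ ^ 2 / (3 * (1 + β ^ 2) * (1 + r ^ 2)) ≤ ρ * P := by
      rw [div_le_iff₀ (by positivity)]
      have := mul_le_mul_of_nonneg_left h2 hρ0.le
      have e : ρ * (φ ^ 2 * pp β) = lm * φ ^ 2 := by
        rw [← hρp]
        ring
      rw [e] at this
      linarith
    rw [h3]
    refine le_trans ?_ (le_add_of_nonneg_of_le h1 h4)
    -- the square
    have h5 : r ^ L - 1 - κ * (r ^ 2 - 1) ≤ Δ * max 0 φ := by
      rcases le_total 0 φ with h | h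
      · rw [max_eq_right h]
        exact Alg_outside hL hL4 hβ hr h
      · rw [max_eq_left h, mul_zero]
        exact Alg_chord hL hβ hr h
    have h6 : (max 0 φ) ^ 2 ≤ φ ^ 2 := by
      rcases le_total 0 φ with h | h
      · rw [max_eq_right h]
      · rw [max_eq_left h, zero_pow two_ne_zero]
        positivity
    set ψ := max 0 φ with hψ
    have h7 : 2 * t * (r ^ L - 1 - κ * (r ^ 2 - 1)) - t ^ 2 * (1 + r ^ 2) ≤
        Δ ^ 2 * φ ^ 2 / (1 + r ^ 2) := by
      have g1 : 2 * t * (r ^ L - 1 - κ * (r ^ 2 - 1)) ≤ 2 * t * (Δ * ψ) :=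
        mul_le_mul_of_nonneg_left h5 (by positivity)
      have g2 : 2 * t * (Δ * ψ) - t ^ 2 * (1 + r ^ 2) ≤ Δ ^ 2 * ψ ^ 2 / (1 + r ^ 2) := by
        rw [le_div_iff₀ hR]
        nlinarith [sq_nonneg (Δ * ψ - t * (1 + r ^ 2))]
      have g3 : Δ ^ 2 * ψ ^ 2 / (1 + r ^ 2) ≤ Δ ^ 2 * φ ^ 2 / (1 + r ^ 2) :=
        div_le_div_of_nonneg_right (mul_le_mul_of_nonneg_left h6 (sq_nonneg Δ)) hR.le
      linarith
    have hK : 0 < lm / (3 * (1 + β ^ 2) * Δ ^ 2) := by positivity
    refine (mul_le_mul_of_nonneg_left h7 hK.le).trans (le_of_eq ?_)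
    field_simp

end Pool.Agent.W_bbc525_td
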