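import Pool.Agent.W_bbc525_td.Count

/-!
# Two degrees: the phase diagram
-/

set_option autoImplicit false
set_option linter.unusedSectionVars false

namespace Pool.Agent.W_bbc525_td

open Finset MeasureTheory Pool.Agent.W_MP_bbc525_pr Pool.Agent.W_bbc525_h89

/-- the final scalar inequality -/
theorem final {θ x ϖ η δ κ K φ : ℝ} (h1 : 1 < θ) (hx1 : x < 1)
    (hη : 0 < η) (hδ : 0 < δ) (hϖ : 0 ≤ ϖ)
    (hκ : 0 < κ) (hK : 0 < K) (hKκ : θ - 1 < 4 * κ * K) (hφ : ϖ * η + κ * δ ≤ φ) :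
    ϖ * ((θ - 1) * (η * δ)) < K * φ ^ 2 := by
  have h0 : 0 < ϖ * η + κ * δ := by positivity
  have h3 : K * (ϖ * η + κ * δ) ^ 2 ≤ K * φ ^ 2 :=
    mul_le_mul_of_nonneg_left (pow_le_pow_left₀ h0.le hφ 2) hK.le
  refine lt_of_lt_of_le ?_ h3
  rcases hϖ.eq_or_lt with rfl | hϖ'
  · rw [zero_mul, zero_mul, zero_add]
    positivity
  · have h4 : 0 < ϖ * η * δ := by positivity
    have h5 : (θ - 1) * (ϖ * η * δ) < 4 * κ * K * (ϖ * η * δ) :=
      mul_lt_mul_of_pos_right hKκ h4
    have h6 : 0 ≤ K * (ϖ * η - κ * δ) ^ 2 := by positivity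
    nlinarith

theorem cost_shift {p q : ℝ} (hp : 0 < p) (hp1 : p < 1) (hq : 0 < q) (hq1 : q < 1) (W : Graphon) :
    cost p W - relEnt p q = cost q W + (logit q - logit p) * (W.mean - q) := by
  have h1 : cost p W - relEnt p q = ∫ z : unitInterval × unitInterval,
      (relEnt p (W.W z.1 z.2) - relEnt p q) := by
    rw [integral_sub (integrable_relEnt hp hp1 W) (integrable_const _)]
    simp [cost]
  have h2 : ∀ z : unitInterval × unitInterval, relEnt p (W.W z.1 z.2) - relEnt p q =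
      relEnt q (W.W z.1 z.2) + (logit q - logit p) * (W.W z.1 z.2 - q) := fun z =>
    relEnt_shift hp hp1 hq hq1 (W.nonneg _ _) (W.le_one _ _)
  have i1 : Integrable (fun z : unitInterval × unitInterval => W.W z.1 z.2 - q) :=
    W.integrable_W.sub (integrable_const _)
  have i2 : Integrable (fun z : unitInterval × unitInterval =>
      (logit q - logit p) * (W.W z.1 z.2 - q)) := i1.const_mul _
  rw [h1, integral_congr_ae (Filter.Eventually.of_forall h2),
    integral_add (integrable_relEnt hq hq1 W) i2, integral_const_mul,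
    integral_sub W.integrable_W (integrable_const _)]
  simp [cost, Graphon.mean]

theorem integral_poly (W : Graphon) (k l : ℕ) (α₀ α₁ αk αl : ℝ) :
    ∫ z : unitInterval × unitInterval, (α₀ + α₁ * W.W z.1 z.2 + αk * W.W z.1 z.2 ^ k +
      αl * W.W z.1 z.2 ^ l) = α₀ + α₁ * W.mean + αk * W.mom k + αl * W.mom l := by
  rw [integral_add, integral_add, integral_add, integral_const_mul, integral_const_mul,
    integral_const_mul]
  · simp [Graphon.mean, Graphon.mom]
  · exact integrable_const _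
  · exact W.integrable_W.const_mul _
  · exact (integrable_const _).add (W.integrable_W.const_mul _)
  · exact (W.integrable_pow k).const_mul _
  · exact ((integrable_const _).add (W.integrable_W.const_mul _)).add
      ((W.integrable_pow k).const_mul _)
  · exact (W.integrable_pow l).const_mul _

theorem integrable_poly (W : Graphon) (k l : ℕ) (α₀ α₁ αk αl : ℝ) :
    Integrable (fun z : unitInterval × unitInterval => α₀ + α₁ * W.W z.1 z.2 +
      αk * W.W z.1 z.2 ^ k + αl * W.W z.1 z.2 ^ l) :=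
  (((integrable_const _).add (W.integrable_W.const_mul _)).add
    ((W.integrable_pow k).const_mul _)).add ((W.integrable_pow l).const_mul _)

variable {V : Type*} [Fintype V] [DecidableEq V] {H : SimpleGraph V} [DecidableRel H.Adj]

/-- the vertex condition in normalized form -/
theorem Ncond.norm {k l : ℕ} (hk : 0 < k) (hkl : k < l) (h : KL H k l)
    (hE : 0 < H.edgeFinset.card) {p q : ℝ} (hp : 0 < p) (hpq : p ≤ q) (hq1 : q < 1)
    (hN : Ncond H p q) {a b : ℝ} (ha : a = (cnt H k k + cnt H k l / 2) / H.edgeFinset.card)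
    (hb : b = (cnt H l l + cnt H k l / 2) / H.edgeFinset.card) (hab : a + b = 1) :
    ∀ X, 0 ≤ X → X ≤ 1 / q → q * (logit q - logit p) * (a * ps k X + b * ps l X) ≤ dd q X := by
  intro X hX hX'
  have hq : 0 < q := lt_of_lt_of_le hp hpq
  have hp1 : p < 1 := lt_of_le_of_lt hpq hq1
  have hE' : (0:ℝ) < H.edgeFinset.card := by exact_mod_cast hE
  have h1 : q * X ≤ 1 := by
    rw [le_div_iff₀ hq] at hX'
    linarith
  have h2 := hN (q * X) (by positivity) h1
  rw [relEnt_shift hp hp1 hq hq1 (by positivity) h1, mul_div_cancel_left₀ _ hq.ne'] at h2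
  have h3 := sum_deg hk hkl h (m := fun j => X ^ j) (pow_zero X)
  rw [h3] at h2
  have e : q * (logit q - logit p) / (2 * (H.edgeFinset.card : ℝ)) *
      (2 * ((cnt H k k + cnt H k l / 2) * ((X ^ k - 1) / k) +
        (cnt H l l + cnt H k l / 2) * ((X ^ l - 1) / l))) =
      q * (logit q - logit p) * (a * ((X ^ k - 1) / k) + b * ((X ^ l - 1) / l)) := by
    rw [ha, hb]
    field_simp
  rw [e] at h2
  have e2 : q * (logit q - logit p) * (a * ps k X + b * ps l X) =
      q * (logit q - logit p) * (a * ((X ^ k - 1) / k) + b * ((X ^ l - 1) / l)) -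
        (a + b) * (q * (logit q - logit p) * (X - 1)) := by
    unfold ps
    ring
  rw [e2, hab]
  unfold dd
  linarith

/-- **Excess.** -/
theorem excess {k l : ℕ} (hk : 2 ≤ k) (hkl : k < l) (hl : l ≤ 2 * k) (h : KL H k l)
    (hE : 0 < H.edgeFinset.card) (nk : 0 < cnt H k k + cnt H k l / 2)
    (nl : 0 < cnt H l l + cnt H k l / 2) {p q : ℝ} (hp : 0 < p) (hpq : p ≤ q) (hq1 : q < 1)
    (hN : Ncond H p q) (W : Graphon) (hW : q ^ H.edgeFinset.card ≤ homDensity H W)
    (hx1 : W.mom k / q ^ k < 1) : relEnt p q < cost p W := by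
  have hq : 0 < q := lt_of_lt_of_le hp hpq
  have hp1 : p < 1 := lt_of_le_of_lt hpq hq1
  have hk0 : 0 < k := by omega
  have hk' : (0 : ℝ) < k := by exact_mod_cast hk0
  have hl' : (0 : ℝ) < l := by exact_mod_cast hk0.trans hkl
  have hkl' : (k : ℝ) < l := by exact_mod_cast hkl
  have hl2 : (l : ℝ) ≤ 2 * k := by exact_mod_cast hl
  have hE' : (0:ℝ) < H.edgeFinset.card := by exact_mod_cast hE
  have hcard := card_types hk0 hkl h
  obtain ⟨hx0, hz0, hzx, hI⟩ := feas hk0 hkl hl h hE hq W hW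
  obtain ⟨E, hEdef⟩ : ∃ E : ℝ, E = (H.edgeFinset.card : ℝ) := ⟨_, rfl⟩
  rw [← hEdef] at hE' hcard
  set c1 := cnt H k k with hc1
  set c2 := cnt H l l with hc2
  set c3 := cnt H k l with hc3
  have c1n : 0 ≤ c1 := cnt_nonneg _ _
  have c2n : 0 ≤ c2 := cnt_nonneg _ _
  have c3n : 0 ≤ c3 := cnt_nonneg _ _
  obtain ⟨a, ha⟩ : ∃ a, a = (c1 + c3 / 2) / E := ⟨_, rfl⟩
  obtain ⟨b, hb⟩ : ∃ b, b = (c2 + c3 / 2) / E := ⟨_, rfl⟩
  have ha0 : 0 < a := by rw [ha]; positivity
  have hb0 : 0 < b := by rw [hb]; positivity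
  have hab : a + b = 1 := by
    rw [ha, hb, ← add_div, div_eq_one_iff_eq hE'.ne']
    linarith
  have hT₀ : 0 ≤ q * (logit q - logit p) := mul_nonneg hq.le (logit_mono hp hpq hq1)
  obtain ⟨T, K, κ, hTT, hT, hK, hκ, hKκ, hcert⟩ := cert hk hkl hl ha0 hb0 hab hq hq1 hT₀
    (Ncond.norm hk0 hkl h hE hp hpq hq1 hN (hEdef ▸ ha) (hEdef ▸ hb) hab)
  set x := W.mom k / q ^ k with hx
  set z := W.mom l / q ^ l with hz
  set θ : ℝ := l / k with hθ
  have hθ1 : 1 < θ := by
    rw [hθ, lt_div_iff₀ hk']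
    linarith
  have hθ2 : θ ≤ 2 := by
    rw [hθ, div_le_iff₀ hk']
    linarith
  set w := x ^ θ with hw
  have hw1 : w < 1 := Real.rpow_lt_one hx0.le hx1 (by linarith)
  set δ := 1 - x with hδ
  set η := 1 - w with hη
  have hδ0 : 0 < δ := by linarith
  have hη0 : 0 < η := by linarith
  -- the mean
  have hmean : W.mean < q := by
    have h1 := mom_jensen W (b := 1) (a := k) one_pos (by omega)
    rw [Graphon.mom_one, Nat.cast_one, div_one, Real.rpow_natCast] at h1
    have h2 : W.mom k < q ^ k := by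
      rw [hx, div_lt_one (by positivity)] at hx1
      exact hx1
    by_contra hcon
    push Not at hcon
    have := pow_le_pow_left₀ hq.le hcon k
    linarith
  -- the integrated certificate
  obtain ⟨φ, hφ⟩ : ∃ φ, φ = (z - 1) + κ * δ := ⟨_, rfl⟩
  have hzn : c3 / 2 * η ≤ (z - 1) * (c2 + c3 / 2) := by
    have h1 : c1 * ((x - 1) / k) ≤ 0 :=
      mul_nonpos_of_nonneg_of_nonpos c1n (div_nonpos_of_nonpos_of_nonneg (by linarith) hk'.le)
    have h2 : 0 ≤ c2 * ((z - 1) / l) + c3 * (((z - 1) + (w - 1)) / (2 * l)) := by linarith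
    have h3 : (c2 * ((z - 1) / l) + c3 * (((z - 1) + (w - 1)) / (2 * l))) * l =
        (z - 1) * (c2 + c3 / 2) - c3 / 2 * η := by
      rw [hη]
      field_simp
      ring
    have h4 := mul_nonneg h2 hl'.le
    rw [h3] at h4
    linarith
  obtain ⟨ϖ, hϖ⟩ : ∃ ϖ, ϖ = c3 / 2 / (c2 + c3 / 2) := ⟨_, rfl⟩
  have hϖ0 : 0 ≤ ϖ := by
    rw [hϖ]
    positivity
  have hϖn : ϖ * (c2 + c3 / 2) = c3 / 2 := by
    rw [hϖ]
    exact div_mul_cancel₀ _ nl.ne'
  have hzϖ : ϖ * η ≤ z - 1 := by
    have h1 : ϖ * η * (c2 + c3 / 2) ≤ (z - 1) * (c2 + c3 / 2) := by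
      calc ϖ * η * (c2 + c3 / 2) = ϖ * (c2 + c3 / 2) * η := by ring
        _ = c3 / 2 * η := by rw [hϖn]
        _ ≤ _ := hzn
    exact le_of_mul_le_mul_right h1 nl
  have hφ1 : ϖ * η + κ * δ ≤ φ := by
    rw [hφ]
    linarith
  have hφ0 : 0 < φ := lt_of_lt_of_le (by positivity) hφ1
  obtain ⟨t, ht⟩ : ∃ t, t = φ / (1 + x) := ⟨_, rfl⟩
  have hx1' : 0 < 1 + x := by linarith
  have ht0 : 0 ≤ t := by
    rw [ht]
    positivity
  have hstep : T * (a * ((x - 1) / k) + b * ((z - 1) / l)) - T * (W.mean / q - 1) +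
      T * b / l * (K * (φ ^ 2 / (1 + x))) ≤ cost q W := by
    have h1 : ∫ z : unitInterval × unitInterval,
        ((T * (a * (-1 / k) + b * (-1 / l) + 1) + T * b / l * (K * (2 * t * (-1 + κ) - t ^ 2))) +
          (-(T / q)) * W.W z.1 z.2 +
          ((T * (a / k) + T * b / l * (K * (- (2 * t * κ) - t ^ 2))) / q ^ k) * W.W z.1 z.2 ^ k +
          ((T * (b / l) + T * b / l * (K * (2 * t))) / q ^ l) * W.W z.1 z.2 ^ l) ≤ cost q W := by
      unfold cost
      apply integral_mono (integrable_poly W k l _ _ _ _) (integrable_relEnt hq hq1 W)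
      intro y
      simp only
      set v := W.W y.1 y.2 with hv
      have h2 := hcert (v / q) t (div_nonneg (W.nonneg _ _) hq.le)
        (div_le_div_of_nonneg_right (W.le_one _ _) hq.le) ht0
      have e1 : dd q (v / q) = relEnt q v := by
        unfold dd
        rw [mul_div_cancel₀ _ hq.ne']
      rw [e1] at h2
      refine le_trans (le_of_eq ?_) h2
      unfold ps
      rw [div_pow, div_pow]
      have hb' : b = 1 - a := by linarith
      rw [hb']
      field_simp
      ring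
    rw [integral_poly] at h1
    refine le_trans (le_of_eq ?_) h1
    have e2 : φ ^ 2 / (1 + x) = 2 * t * ((z - 1) + κ * δ) - t ^ 2 * (1 + x) := by
      rw [← hφ, ht]
      field_simp
      ring
    rw [e2, hx, hz, hδ, hx]
    field_simp
    ring
  -- the conclusion
  have hshift := cost_shift hp hp1 hq hq1 W
  have h5 : T * (W.mean / q - 1) ≤ (logit q - logit p) * (W.mean - q) := by
    have e1 : (logit q - logit p) * (W.mean - q) =
        (q * (logit q - logit p)) * (W.mean / q - 1) := by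
      field_simp
    rw [e1]
    have : W.mean / q - 1 ≤ 0 := by
      rw [sub_nonpos, div_le_one hq]
      exact hmean.le
    exact mul_le_mul_of_nonpos_right hTT this
  have hsc := scal hθ1 hθ2 hx0 hx1.le
  have hfin := final (x := x) hθ1 hx1 hη0 hδ0 hϖ0 hκ hK hKκ hφ1
  -- the lower bound of `ψ`
  have h6 : -(c3 / 2 / l * (w - 1 + θ * (1 - x))) ≤
      E * (a * ((x - 1) / k) + b * ((z - 1) / l)) := by
    have e1 : E * (a * ((x - 1) / k) + b * ((z - 1) / l)) +
        c3 / 2 / l * (w - 1 + θ * (1 - x)) =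
        c1 * ((x - 1) / k) + c2 * ((z - 1) / l) + c3 * (((z - 1) + (w - 1)) / (2 * l)) := by
      rw [ha, hb, hθ]
      field_simp
      ring
    linarith
  have h7 : c3 / 2 * ((1 + x) * (w - 1 + θ * (1 - x))) < (c2 + c3 / 2) * (K * φ ^ 2) := by
    calc c3 / 2 * ((1 + x) * (w - 1 + θ * (1 - x))) ≤ c3 / 2 * ((θ - 1) * (η * δ)) :=
          mul_le_mul_of_nonneg_left hsc (by positivity)
      _ = ϖ * (c2 + c3 / 2) * ((θ - 1) * (η * δ)) := by rw [hϖn]
      _ = (c2 + c3 / 2) * (ϖ * ((θ - 1) * (η * δ))) := by ring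
      _ < _ := mul_lt_mul_of_pos_left hfin nl
  have h8 : c3 / 2 / l * (w - 1 + θ * (1 - x)) < E * (b / l * (K * (φ ^ 2 / (1 + x)))) := by
    have e1 : c3 / 2 / l * (w - 1 + θ * (1 - x)) =
        c3 / 2 * ((1 + x) * (w - 1 + θ * (1 - x))) * (1 / (l * (1 + x))) := by
      field_simp
    have e2 : E * (b / l * (K * (φ ^ 2 / (1 + x)))) =
        (c2 + c3 / 2) * (K * φ ^ 2) * (1 / (l * (1 + x))) := by
      rw [hb]
      field_simp
    rw [e1, e2]
    exact mul_lt_mul_of_pos_right h7 (by positivity)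
  have h9 : 0 < a * ((x - 1) / k) + b * ((z - 1) / l) + b / l * (K * (φ ^ 2 / (1 + x))) := by
    have : 0 < E * (a * ((x - 1) / k) + b * ((z - 1) / l) + b / l * (K * (φ ^ 2 / (1 + x)))) := by
      rw [mul_add]
      linarith
    exact pos_of_mul_pos_right this hE'.le
  have h10 := mul_pos hT h9
  have h11 : T * (a * ((x - 1) / k) + b * ((z - 1) / l) + b / l * (K * (φ ^ 2 / (1 + x)))) =
      T * (a * ((x - 1) / k) + b * ((z - 1) / l)) + T * b / l * (K * (φ ^ 2 / (1 + x))) := by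
    ring
  rw [h11] at h10
  linarith

end Pool.Agent.W_bbc525_td
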