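import Pool.Agent.W_MP_bbc525_pr.Suff

/-!
# Two degrees: basic functions

`dd q X = D_KL(q X ‖ q)`, `ps d X = (X ^ d - 1) / d - (X - 1)`, the first two derivatives of `dd`.
-/

set_option autoImplicit false

namespace Pool.Agent.W_bbc525_td

open Set Pool.Agent.W_MP_bbc525_pr

/-- the relative entropy of `q X` with respect to `q` -/
noncomputable def dd (q X : ℝ) : ℝ := relEnt q (q * X)

/-- its derivative -/
noncomputable def dd' (q X : ℝ) : ℝ := q * (Real.log X - Real.log (1 - q * X) + Real.log (1 - q))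

/-- its second derivative -/
noncomputable def dd'' (q X : ℝ) : ℝ := q / (X * (1 - q * X))

/-- `(X ^ d - 1) / d - (X - 1)` -/
noncomputable def ps (d : ℕ) (X : ℝ) : ℝ := (X ^ d - 1) / d - (X - 1)

theorem one_sub_pos {q X : ℝ} (hq : 0 < q) (hX : X < 1 / q) : 0 < 1 - q * X := by
  rw [lt_div_iff₀ hq] at hX
  linarith

theorem dd_eq {q X : ℝ} (hq : 0 < q) (hq1 : q < 1) (hX : 0 < X) (hX1 : X < 1 / q) :
    dd q X = q * X * Real.log X + (1 - q * X) * (Real.log (1 - q * X) - Real.log (1 - q)) := by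
  have h1 := one_sub_pos hq hX1
  unfold dd relEnt
  rw [mul_div_cancel_left₀ _ hq.ne', Real.log_div h1.ne' (by linarith)]

theorem hasDerivAt_dd {q X : ℝ} (hq : 0 < q) (hq1 : q < 1) (hX : 0 < X) (hX1 : X < 1 / q) :
    HasDerivAt (dd q) (dd' q X) X := by
  have h1 := one_sub_pos hq hX1
  have e : dd q =ᶠ[nhds X] fun X => q * X * Real.log X +
      (1 - q * X) * (Real.log (1 - q * X) - Real.log (1 - q)) := by
    filter_upwards [Ioo_mem_nhds hX hX1] with Y hY
    exact dd_eq hq hq1 hY.1 hY.2
  have l1 : HasDerivAt (fun X : ℝ => q * X) q X := by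
    simpa using (hasDerivAt_id X).const_mul q
  have l2 : HasDerivAt (fun X : ℝ => 1 - q * X) (-q) X := l1.const_sub 1
  have d1 := l1.mul (Real.hasDerivAt_log hX.ne')
  have d2 := l2.mul ((l2.log h1.ne').sub_const (Real.log (1 - q)))
  have h := (d1.add d2).congr_of_eventuallyEq e
  refine h.congr_deriv ?_
  unfold dd'
  field_simp
  ring

theorem hasDerivAt_dd' {q X : ℝ} (hq : 0 < q) (hX : 0 < X) (hX1 : X < 1 / q) :
    HasDerivAt (dd' q) (dd'' q X) X := by
  have h1 := one_sub_pos hq hX1
  have l1 : HasDerivAt (fun X : ℝ => q * X) q X := by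
    simpa using (hasDerivAt_id X).const_mul q
  have l2 : HasDerivAt (fun X : ℝ => 1 - q * X) (-q) X := l1.const_sub 1
  have h := (((Real.hasDerivAt_log hX.ne').sub (l2.log h1.ne')).add_const
    (Real.log (1 - q))).const_mul q
  refine h.congr_deriv ?_
  unfold dd''
  field_simp
  ring

theorem dd_one {q : ℝ} (hq : 0 < q) (hq1 : q < 1) : dd q 1 = 0 := by
  unfold dd relEnt
  rw [mul_one, div_self hq.ne', div_self (by linarith)]
  simp

theorem dd'_one (q : ℝ) : dd' q 1 = 0 := by
  unfold dd'
  simp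

theorem ps_one (d : ℕ) : ps d 1 = 0 := by simp [ps]

theorem continuousOn_dd {q : ℝ} (hq : 0 < q) (hq1 : q < 1) : ContinuousOn (dd q) (Icc 0 (1 / q)) := by
  have h : ContinuousOn (fun x : ℝ => x * Real.log (x / q) +
      (1 - x) * Real.log ((1 - x) / (1 - q))) (Icc 0 1) := by
    have e : (fun x : ℝ => x * Real.log (x / q) + (1 - x) * Real.log ((1 - x) / (1 - q))) =
        fun x : ℝ => q * (x / q * Real.log (x / q)) +
          (1 - q) * ((1 - x) / (1 - q) * Real.log ((1 - x) / (1 - q))) := by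
      funext x
      have : (1 - q) ≠ 0 := by linarith
      field_simp
    rw [e]
    apply Continuous.continuousOn
    apply Continuous.add
    · exact continuous_const.mul (Real.continuous_mul_log.comp (continuous_id.div_const q))
    · exact continuous_const.mul (Real.continuous_mul_log.comp
        ((continuous_const.sub continuous_id).div_const (1 - q)))
  have h2 : ContinuousOn (fun X : ℝ => q * X) (Icc 0 (1 / q)) :=
    (continuous_const.mul continuous_id).continuousOn
  refine h.comp h2 ?_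
  intro X hX
  refine ⟨mul_nonneg hq.le hX.1, ?_⟩
  have := hX.2
  rw [le_div_iff₀ hq] at this
  linarith

theorem continuous_ps (d : ℕ) : Continuous (ps d) := by
  unfold ps
  fun_prop

theorem hasDerivAt_ps {d : ℕ} (hd : 0 < d) (X : ℝ) : HasDerivAt (ps d) (X ^ (d - 1) - 1) X := by
  have hd' : (d : ℝ) ≠ 0 := by exact_mod_cast hd.ne'
  have h := (((hasDerivAt_pow d X).sub_const 1).div_const (d : ℝ)).sub
    ((hasDerivAt_id X).sub_const 1)
  refine h.congr_deriv ?_
  field_simp

/-- `ps d X ≥ 0` -/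
theorem ps_nonneg {d : ℕ} (hd : 0 < d) {X : ℝ} (hX : 0 ≤ X) : 0 ≤ ps d X := by
  have h := one_add_mul_le_pow (a := X - 1) (by linarith) d
  have hd' : (0 : ℝ) < d := by exact_mod_cast hd
  unfold ps
  rw [sub_nonneg, le_div_iff₀ hd']
  have e : (1 + (X - 1)) = X := by ring
  rw [e] at h
  linarith

end Pool.Agent.W_bbc525_td
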