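import Pool.Agent.W_bbc525_td.Touch2
import Pool.Agent.W_bbc525_td.Comp
import Pool.Agent.W_bbc525_td.Alg

/-!
# Two degrees: the pointwise certificate
-/

set_option autoImplicit false

namespace Pool.Agent.W_bbc525_td

open Set Pool.Agent.W_MP_bbc525_pr

/-- **The pointwise certificate.** -/
theorem cert {k l : ℕ} (hk : 2 ≤ k) (hkl : k < l) (hl : l ≤ 2 * k) {a b q T₀ : ℝ} (ha : 0 < a)
    (hb : 0 < b) (hab : a + b = 1) (hq : 0 < q) (hq1 : q < 1) (hT₀ : 0 ≤ T₀)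
    (hN : ∀ X, 0 ≤ X → X ≤ 1 / q → T₀ * (a * ps k X + b * ps l X) ≤ dd q X) :
    ∃ T K κ : ℝ, T₀ ≤ T ∧ 0 < T ∧ 0 < K ∧ 0 < κ ∧ (l : ℝ) / k - 1 < 4 * κ * K ∧
      ∀ X t, 0 ≤ X → X ≤ 1 / q → 0 ≤ t → T * (a * ps k X + b * ps l X) +
        T * b / l * (K * (2 * t * (X ^ l - 1 - κ * (X ^ k - 1)) - t ^ 2 * (1 + X ^ k))) ≤
          dd q X := by
  have hk0 : (0 : ℝ) < k := by exact_mod_cast (by omega : 0 < k)
  have hl0 : (0 : ℝ) < l := by exact_mod_cast (by omega : 0 < l)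
  have hkl' : (k : ℝ) < l := by exact_mod_cast hkl
  have hl' : (l : ℝ) ≤ 2 * k := by exact_mod_cast hl
  obtain ⟨T, X₀, hTT, hT, hX0, hX1, hS, e0, e1, e2⟩ := touch hk hkl ha hb hab hq hq1 hT₀
    (fun X hX hX' => by
      have := hN X hX hX'
      unfold SS Ph
      linarith)
  set L : ℝ := 2 * l / k with hL
  have hL2 : 2 < L := by
    rw [hL, lt_div_iff₀ hk0]
    linarith
  have hL4 : L ≤ 4 := by
    rw [hL, div_le_iff₀ hk0]
    linarith
  set β : ℝ := X₀ ^ ((k : ℝ) / 2) with hβ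
  have hβ0 : 0 < β := Real.rpow_pos_of_pos hX0 _
  obtain ⟨B, A, c, g, K, κ, hB, hA, hc, hK, hκ, hKκ, g1, g2, g3, g4, g5, hcert⟩ :=
    alg hL2 hL4 hβ0
  have s2 : ∀ X : ℝ, 0 ≤ X → (X ^ ((k : ℝ) / 2)) ^ 2 = X ^ k := by
    intro X hX
    rw [← Real.rpow_natCast (X ^ ((k : ℝ) / 2)) 2, ← Real.rpow_mul hX, ← Real.rpow_natCast X k]
    congr 1
    push_cast
    ring
  have s8 : ∀ X : ℝ, 0 ≤ X → (X ^ ((k : ℝ) / 2)) ^ 8 = X ^ (4 * k) := by
    intro X hX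
    have : (X ^ ((k : ℝ) / 2)) ^ 8 = ((X ^ ((k : ℝ) / 2)) ^ 2) ^ 4 := by ring
    rw [this, s2 X hX, ← pow_mul]
    congr 1
    ring
  have sL : ∀ X : ℝ, 0 ≤ X → (X ^ ((k : ℝ) / 2)) ^ L = X ^ l := by
    intro X hX
    rw [← Real.rpow_mul hX, ← Real.rpow_natCast X l]
    congr 1
    rw [hL]
    field_simp
  refine ⟨T, K, κ, hTT, hT, hK, hκ, ?_, ?_⟩
  · have : (l : ℝ) / k - 1 = L / 2 - 1 := by
      rw [hL]
      ring
    rw [this]
    exact hKκ
  intro X t hX hX' ht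
  have hcomp := comp hk hkl ha hb hab hq hq1 hT hX0 hX1 (B := B) (A := A) (c := c) (g := g)
    (by
      unfold SS Ph at e0
      linarith)
    (by
      unfold SS' Ph' at e1
      have p1 : X₀ ^ k = X₀ * X₀ ^ (k - 1) := by
        rw [← pow_succ']
        congr 1
        omega
      have p2 : X₀ ^ l = X₀ * X₀ ^ (l - 1) := by
        rw [← pow_succ']
        congr 1
        omega
      rw [p1, p2]
      linear_combination - X₀ * e1)
    e2 hB hA hc g1 g2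
    (by
      rw [s8 X₀ hX0.le, sL X₀ hX0.le, s2 X₀ hX0.le] at g3
      exact g3)
    (by
      rw [s8 X₀ hX0.le, sL X₀ hX0.le, s2 X₀ hX0.le] at g4
      exact g4)
    (by
      intro h
      apply g5
      rw [hβ, h, Real.one_rpow])
    X hX hX'
  have h2 := hcert (X ^ ((k : ℝ) / 2)) t (Real.rpow_nonneg hX _) ht
  rw [s8 X hX, sL X hX, s2 X hX] at h2
  have h3 : 0 ≤ T * b / l := by positivity
  have := mul_le_mul_of_nonneg_left h2 h3
  linarith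

end Pool.Agent.W_bbc525_td
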