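import Pool.Agent.W_bbc525_td.Cert
import Pool.Agent.W_bbc525_h89.Full

/-!
# Two degrees: counting edges, the scalar inequality
-/

set_option autoImplicit false
set_option linter.unusedSectionVars false

namespace Pool.Agent.W_bbc525_td

open Finset MeasureTheory Pool.Agent.W_MP_bbc525_pr Pool.Agent.W_bbc525_h89

theorem scal {θ x : ℝ} (h1 : 1 < θ) (h2 : θ ≤ 2) (hx : 0 < x) (hx1 : x ≤ 1) :
    (1 + x) * (x ^ θ - 1 + θ * (1 - x)) ≤ (θ - 1) * ((1 - x ^ θ) * (1 - x)) := by
  have key : 0 ≤ (2 - θ) * (1 - x ^ θ) + θ * (x - x ^ (θ - 1)) := by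
    apply Diam_anti (h := fun x => (2 - θ) * (1 - x ^ θ) + θ * (x - x ^ (θ - 1)))
      (h' := fun x => (2 - θ) * (-(θ * x ^ (θ - 1))) + θ * (1 - (θ - 1) * x ^ (θ - 1 - 1))) _ _
      (by simp) hx hx1
    · intro z hz _
      exact (((Real.hasDerivAt_rpow_const (Or.inl hz.ne')).const_sub 1).const_mul (2 - θ)).add
        (((hasDerivAt_id z).sub (Real.hasDerivAt_rpow_const (Or.inl hz.ne'))).const_mul θ)
    · intro z hz _
      have h3 := Real.geom_mean_le_arith_mean2_weighted (w₁ := 2 - θ) (w₂ := θ - 1)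
        (p₁ := z ^ (θ - 1)) (p₂ := z ^ (θ - 1 - 1)) (by linarith) (by linarith)
        (Real.rpow_nonneg hz.le _) (Real.rpow_nonneg hz.le _) (by ring)
      rw [← Real.rpow_mul hz.le, ← Real.rpow_mul hz.le, ← Real.rpow_add hz] at h3
      have e : (θ - 1) * (2 - θ) + (θ - 1 - 1) * (θ - 1) = 0 := by ring
      rw [e, Real.rpow_zero] at h3
      have : 0 ≤ θ * ((2 - θ) * z ^ (θ - 1) + (θ - 1) * z ^ (θ - 1 - 1) - 1) :=
        mul_nonneg (by linarith) (by linarith)
      linarith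
  have e : x ^ θ = x * x ^ (θ - 1) := by
    rw [Real.rpow_sub_one hx.ne']
    field_simp
  have := mul_nonneg hx.le key
  rw [e] at this ⊢
  nlinarith

variable {V : Type*} [Fintype V] [DecidableEq V] {H : SimpleGraph V} [DecidableRel H.Adj]

/-- all positive degrees are `k` or `l` -/
def KL (H : SimpleGraph V) [DecidableRel H.Adj] (k l : ℕ) : Prop :=
  ∀ v, H.degree v = 0 ∨ H.degree v = k ∨ H.degree v = l

/-- number of edges of a type -/
noncomputable def cnt (H : SimpleGraph V) [DecidableRel H.Adj] (i j : ℕ) : ℝ :=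
  ((H.edgeFinset.filter fun e => ndeg H e = i ∧ mdeg H e = j).card : ℝ)

theorem cnt_nonneg (i j : ℕ) : 0 ≤ cnt H i j := Nat.cast_nonneg _

theorem KL_two {k l : ℕ} (hkl : k < l) (hl : l ≤ 2 * k) (h : KL H k l) : Two H := by
  intro i j hij
  have h1 : 0 < H.degree j := (H.degree_pos_iff_exists_adj j).2 ⟨i, hij.symm⟩
  rcases h i with h2 | h2 | h2 <;> rcases h j with h3 | h3 | h3 <;> omega

theorem KL_type {k l : ℕ} (hk : 0 < k) (hkl : k < l) (h : KL H k l) {e : Sym2 V}
    (he : e ∈ H.edgeFinset) :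
    (ndeg H e = k ∧ mdeg H e = k) ∨ (ndeg H e = l ∧ mdeg H e = l) ∨
      (ndeg H e = k ∧ mdeg H e = l) := by
  induction e using Sym2.ind with
  | _ i j =>
    have hadj : H.Adj i j := by simpa using he
    have h1 : 0 < H.degree j := (H.degree_pos_iff_exists_adj j).2 ⟨i, hadj.symm⟩
    have h2 : 0 < H.degree i := (H.degree_pos_iff_exists_adj i).2 ⟨j, hadj⟩
    rw [ndeg_mk, mdeg_mk]
    rcases h i with h3 | h3 | h3 <;> rcases h j with h4 | h4 | h4 <;> omega

theorem sum_types {k l : ℕ} (hk : 0 < k) (hkl : k < l) (h : KL H k l) (f : ℕ → ℕ → ℝ) :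
    ∑ e ∈ H.edgeFinset, f (ndeg H e) (mdeg H e) =
      cnt H k k * f k k + cnt H l l * f l l + cnt H k l * f k l := by
  have e1 : ∀ e ∈ H.edgeFinset, f (ndeg H e) (mdeg H e) =
      (if ndeg H e = k ∧ mdeg H e = k then f k k else 0) +
      (if ndeg H e = l ∧ mdeg H e = l then f l l else 0) +
      (if ndeg H e = k ∧ mdeg H e = l then f k l else 0) := by
    intro e he
    have hne : k ≠ l := hkl.ne
    rcases KL_type hk hkl h he with ⟨h1, h2⟩ | ⟨h1, h2⟩ | ⟨h1, h2⟩ <;>
      simp [h1, h2, hne, hne.symm]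
  rw [Finset.sum_congr rfl e1, Finset.sum_add_distrib, Finset.sum_add_distrib,
    ← Finset.sum_filter, ← Finset.sum_filter, ← Finset.sum_filter, Finset.sum_const,
    Finset.sum_const, Finset.sum_const, nsmul_eq_mul, nsmul_eq_mul, nsmul_eq_mul]
  rfl

theorem card_types {k l : ℕ} (hk : 0 < k) (hkl : k < l) (h : KL H k l) :
    (H.edgeFinset.card : ℝ) = cnt H k k + cnt H l l + cnt H k l := by
  have := sum_types hk hkl h (fun _ _ => (1 : ℝ))
  rw [Finset.sum_const, nsmul_eq_mul, mul_one, mul_one, mul_one, mul_one] at this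
  exact this

theorem sum_deg {k l : ℕ} (hk : 0 < k) (hkl : k < l) (h : KL H k l) {m : ℕ → ℝ} (hm : m 0 = 1) :
    ∑ v, (m (H.degree v) - 1) = 2 * ((cnt H k k + cnt H k l / 2) * ((m k - 1) / k) +
      (cnt H l l + cnt H k l / 2) * ((m l - 1) / l)) := by
  rw [← sum_psi hm, sum_types hk hkl h (fun i j => psi m j + psi m i)]
  unfold psi
  ring

/-- both degrees occur -/
theorem cnt_pos {k l : ℕ} (hk : 0 < k) (hkl : k < l) (h : KL H k l) {v : V} :
    (H.degree v = k → 0 < cnt H k k + cnt H k l / 2) ∧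
    (H.degree v = l → 0 < cnt H l l + cnt H k l / 2) := by
  have c1 := cnt_nonneg (H := H) k k
  have c2 := cnt_nonneg (H := H) l l
  have c3 := cnt_nonneg (H := H) k l
  have hpos : ∀ i j e, e ∈ H.edgeFinset → ndeg H e = i → mdeg H e = j → 0 < cnt H i j := by
    intro i j e he h1 h2
    have : 0 < (H.edgeFinset.filter fun e => ndeg H e = i ∧ mdeg H e = j).card :=
      Finset.card_pos.2 ⟨e, Finset.mem_filter.2 ⟨he, h1, h2⟩⟩
    unfold cnt
    exact_mod_cast this
  constructor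
  · intro hv
    obtain ⟨e, he, hve⟩ := exists_edge (H := H) (v := v) (by omega)
    have h1 := ndeg_le_degree (H := H) hve
    rcases KL_type hk hkl h he with ⟨h2, h3⟩ | ⟨h2, h3⟩ | ⟨h2, h3⟩
    · have := hpos k k e he h2 h3
      linarith
    · omega
    · have := hpos k l e he h2 h3
      linarith
  · intro hv
    obtain ⟨e, he, hve⟩ := exists_edge (H := H) (v := v) (by omega)
    have h1 := degree_le_mdeg H hve
    rcases KL_type hk hkl h he with ⟨h2, h3⟩ | ⟨h2, h3⟩ | ⟨h2, h3⟩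
    · omega
    · have := hpos l l e he h2 h3
      linarith
    · have := hpos k l e he h2 h3
      linarith

/-- the linear consequence of feasibility -/
theorem feas {k l : ℕ} (hk : 0 < k) (hkl : k < l) (hl : l ≤ 2 * k) (h : KL H k l)
    (hE : 0 < H.edgeFinset.card) {q : ℝ} (hq : 0 < q) (W : Graphon)
    (hW : q ^ H.edgeFinset.card ≤ homDensity H W) :
    0 < W.mom k / q ^ k ∧ 0 < W.mom l / q ^ l ∧
    (W.mom k / q ^ k) ^ ((l : ℝ) / k) ≤ W.mom l / q ^ l ∧
    0 ≤ cnt H k k * ((W.mom k / q ^ k - 1) / k) + cnt H l l * ((W.mom l / q ^ l - 1) / l) +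
      cnt H k l * (((W.mom l / q ^ l - 1) + ((W.mom k / q ^ k) ^ ((l : ℝ) / k) - 1)) / (2 * l)) := by
  have hk' : (0 : ℝ) < k := by exact_mod_cast hk
  have hl' : (0 : ℝ) < l := by exact_mod_cast hk.trans hkl
  have hT := KL_two hkl hl h
  have h1 : q ^ H.edgeFinset.card ≤ Psi H W.mom := hW.trans (homDensity_le_Psi H hT W)
  have h2 : 0 < Psi H W.mom := lt_of_lt_of_le (pow_pos hq _) h1
  have hpos : ∀ k, 0 < W.mom k / q ^ k := fun k => div_pos (mom_pos W hE h2 k) (pow_pos hq k)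
  have hj : (W.mom k / q ^ k) ^ ((l : ℝ) / k) ≤ W.mom l / q ^ l := by
    have h3 : (W.mom k / q ^ k) ^ ((l : ℝ) / k) = W.mom k ^ ((l : ℝ) / k) / q ^ l := by
      rw [Real.div_rpow (W.mom_nonneg _) (by positivity), ← Real.rpow_natCast q k,
        ← Real.rpow_mul hq.le, mul_div_cancel₀ _ hk'.ne', Real.rpow_natCast]
    rw [h3]
    exact div_le_div_of_nonneg_right (mom_jensen W hk hkl.le) (by positivity)
  refine ⟨hpos k, hpos l, hj, ?_⟩
  have h3 : 0 ≤ lpsi H.edgeFinset (mdeg H) (ndeg H) (fun k => W.mom k / q ^ k) := by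
    rw [← log_Psi H (M := fun k => W.mom k / q ^ k) hpos, Psi_scale W.mom_nonneg hq]
    apply Real.log_nonneg
    rw [le_div_iff₀ (by positivity), one_mul]
    exact h1
  set m : ℕ → ℝ := fun k => W.mom k / q ^ k with hm
  obtain ⟨f, hf⟩ : ∃ f : ℕ → ℕ → ℝ, ∀ i j : ℕ,
      f i j = ((m j - 1) + (m i ^ ((j : ℝ) / i) - 1)) / (2 * (j : ℝ)) := ⟨_, fun _ _ => rfl⟩
  have h4 : lpsi H.edgeFinset (mdeg H) (ndeg H) m ≤ ∑ e ∈ H.edgeFinset,
      f (ndeg H e) (mdeg H e) := by
    unfold lpsi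
    refine Finset.sum_le_sum fun e he => ?_
    have ha' : (0 : ℝ) < mdeg H e := by exact_mod_cast mdeg_pos H he
    have hY : 0 < (m (mdeg H e) + m (ndeg H e) ^ ((mdeg H e : ℝ) / ndeg H e)) / 2 := by
      have := hpos (mdeg H e)
      have := Real.rpow_pos_of_pos (hpos (ndeg H e)) ((mdeg H e : ℝ) / ndeg H e)
      positivity
    have := Real.log_le_sub_one_of_pos hY
    have h5 := mul_le_mul_of_nonneg_left this (one_div_pos.2 ha').le
    refine h5.trans (le_of_eq ?_)
    rw [hf]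
    field_simp
    ring
  rw [sum_types hk hkl h f, hf, hf, hf] at h4
  rw [div_self hk'.ne', div_self hl'.ne', Real.rpow_one, Real.rpow_one] at h4
  have h6 := h3.trans h4
  refine h6.trans (le_of_eq ?_)
  rw [hm]
  simp only
  field_simp
  ring

end Pool.Agent.W_bbc525_td
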