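import Mathlib

/-!
# Two degrees: the inequality in two real variables
-/

set_option autoImplicit false

namespace Pool.Agent.W_bbc525_td

open Set

theorem Diam_log_ge {z : ℝ} (hz : 0 < z) (hz1 : z ≤ 1) : 2 * (1 - z) / (1 + z) ≤ - Real.log z := by
  have h := Real.le_log_one_add_of_nonneg (x := (1 - z) / z) (div_nonneg (by linarith) hz.le)
  have e1 : 1 + (1 - z) / z = z⁻¹ := by
    field_simp
    ring
  have e2 : 2 * ((1 - z) / z) / ((1 - z) / z + 2) = 2 * (1 - z) / (1 + z) := by
    have : (1 - z) / z + 2 = (1 + z) / z := by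
      field_simp
      ring
    rw [this]
    field_simp
  rw [e1, e2, Real.log_inv] at h
  exact h

/-- a decreasing function on `(0, 1]` vanishing at `1` is nonnegative -/
theorem Diam_anti {h h' : ℝ → ℝ} (hd : ∀ z, 0 < z → z ≤ 1 → HasDerivAt h (h' z) z)
    (hn : ∀ z, 0 < z → z ≤ 1 → h' z ≤ 0) (h1 : h 1 = 0) {z : ℝ} (hz : 0 < z) (hz1 : z ≤ 1) :
    0 ≤ h z := by
  have m : AntitoneOn h (Icc z 1) := by
    apply antitoneOn_of_deriv_nonpos (convex_Icc z 1)
    · exact fun t ht => (hd t (lt_of_lt_of_le hz ht.1) ht.2).continuousAt.continuousWithinAt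
    · intro t ht
      have ht' := interior_subset ht
      exact (hd t (lt_of_lt_of_le hz ht'.1) ht'.2).differentiableAt.differentiableWithinAt
    · intro t ht
      have ht' := interior_subset ht
      rw [(hd t (lt_of_lt_of_le hz ht'.1) ht'.2).deriv]
      exact hn t (lt_of_lt_of_le hz ht'.1) ht'.2
  rw [← h1]
  exact m (left_mem_Icc.2 hz1) (right_mem_Icc.2 hz1) hz1

theorem Diam_log_le {z : ℝ} (hz : 0 < z) (hz1 : z ≤ 1) : - Real.log z ≤ (1 - z ^ 2) / (2 * z) := by
  have h := Diam_anti (h := fun z => (1 - z ^ 2) / (2 * z) + Real.log z)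
    (h' := fun z => - (1 - z) ^ 2 / (2 * z ^ 2)) (by
      intro z hz _
      have d1 : HasDerivAt (fun z : ℝ => 1 - z ^ 2) (-(2 * z)) z := by
        simpa using (hasDerivAt_pow 2 z).const_sub 1
      have d2 : HasDerivAt (fun z : ℝ => 2 * z) 2 z := by
        simpa using (hasDerivAt_id z).const_mul 2
      refine ((d1.div d2 (by positivity)).add (Real.hasDerivAt_log hz.ne')).congr_deriv ?_
      field_simp
      ring) (by
      intro z hz _
      have : 0 ≤ (1 - z) ^ 2 / (2 * z ^ 2) := by positivity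
      rw [neg_div]
      linarith) (by simp) hz hz1
  linarith

theorem Diam_log_le' {b : ℝ} (hz : 0 < b) (hz1 : b ≤ 1) :
    - Real.log b ≤ (1 - b) * (1 + 6 * b + b ^ 2) / (4 * b * (1 + b)) := by
  have h := Diam_anti (h := fun b => (1 - b) * (1 + 6 * b + b ^ 2) / (4 * b * (1 + b)) + Real.log b)
    (h' := fun b => - ((1 - b) ^ 2 * (1 + b ^ 2)) / (4 * b ^ 2 * (1 + b) ^ 2)) (by
      intro z hz _
      have d0 : HasDerivAt (fun z : ℝ => 1 - z) (-1) z := by
        simpa using (hasDerivAt_id z).const_sub 1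
      have d1 : HasDerivAt (fun z : ℝ => 1 + 6 * z + z ^ 2) (6 + 2 * z) z := by
        have := (((hasDerivAt_id z).const_mul 6).const_add 1).add (hasDerivAt_pow 2 z)
        exact this.congr_deriv (by simp)
      have d2 : HasDerivAt (fun z : ℝ => 4 * z) 4 z := by
        simpa using (hasDerivAt_id z).const_mul 4
      have d3 : HasDerivAt (fun z : ℝ => 1 + z) 1 z := by
        simpa using (hasDerivAt_id z).const_add 1
      have hz2 : 1 + z ≠ 0 := by positivity
      refine (((d0.mul d1).div (d2.mul d3) (mul_ne_zero (by positivity) hz2)).add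
        (Real.hasDerivAt_log hz.ne')).congr_deriv ?_
      simp only [Pi.mul_apply]
      field_simp
      ring) (by
      intro z hz _
      have : 0 ≤ ((1 - z) ^ 2 * (1 + z ^ 2)) / (4 * z ^ 2 * (1 + z) ^ 2) := by positivity
      rw [neg_div]
      linarith) (by simp) hz hz1
  linarith

/-- `- log z (1 + z) / (1 - z)` decreases -/
theorem Diam_F {z b : ℝ} (hz : 0 < z) (hzb : z ≤ b) (hb : b < 1) :
    - Real.log b * ((1 + b) / (1 - b)) ≤ - Real.log z * ((1 + z) / (1 - z)) := by
  have hd : ∀ t ∈ Icc z b, HasDerivAt (fun z => - Real.log z * ((1 + z) / (1 - z)))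
      ((- (1 - t ^ 2) / t - 2 * Real.log t) / (1 - t) ^ 2) t := by
    intro t ht
    have ht0 : 0 < t := lt_of_lt_of_le hz ht.1
    have ht1 : 1 - t ≠ 0 := by
      have := lt_of_le_of_lt ht.2 hb
      linarith
    have d0 : HasDerivAt (fun z : ℝ => 1 - z) (-1) t := by
      simpa using (hasDerivAt_id t).const_sub 1
    have d3 : HasDerivAt (fun z : ℝ => 1 + z) 1 t := by
      simpa using (hasDerivAt_id t).const_add 1
    refine ((Real.hasDerivAt_log ht0.ne').neg.mul (d3.div d0 ht1)).congr_deriv ?_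
    simp only [Pi.neg_apply, Pi.div_apply]
    field_simp
    ring
  have m : AntitoneOn (fun z => - Real.log z * ((1 + z) / (1 - z))) (Icc z b) := by
    apply antitoneOn_of_deriv_nonpos (convex_Icc z b)
    · exact fun t ht => (hd t ht).continuousAt.continuousWithinAt
    · intro t ht
      exact (hd t (interior_subset ht)).differentiableAt.differentiableWithinAt
    · intro t ht
      have ht' := interior_subset ht
      have ht0 : 0 < t := lt_of_lt_of_le hz ht'.1
      rw [(hd t ht').deriv]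
      apply div_nonpos_of_nonpos_of_nonneg _ (sq_nonneg _)
      have h2 := Diam_log_le ht0 (ht'.2.trans hb.le)
      have e : (1 - t ^ 2) / (2 * t) = (1 - t ^ 2) / t / 2 := by
        field_simp
      rw [e] at h2
      rw [neg_div]
      linarith
  exact m (left_mem_Icc.2 hzb) (right_mem_Icc.2 hzb) hzb

/-- the main inequality, `y = b ^ p` -/
theorem diam {b p : ℝ} (hb : 0 < b) (hb1 : b < 1) (hp : 0 < p) (hp2 : p ≤ 2) :
    3 / 4 * (1 - b) ^ 2 ≤ (1 - b ^ 2 * b ^ p) / (1 - b ^ p) - (1 + 2 / p) * b := by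
  set y := b ^ p with hy
  have hy0 : 0 < y := Real.rpow_pos_of_pos hb p
  have hy1 : y < 1 := Real.rpow_lt_one hb.le hb1 hp
  have hlog : Real.log y = p * Real.log b := Real.log_rpow hb p
  have hℓ : 0 < - Real.log b := by
    have := Real.log_neg hb hb1
    linarith
  have hb1' : 0 < 1 - b := by linarith
  have hy1' : 0 < 1 - y := by linarith
  have key : (1 - b ^ 2 * y) / (1 - y) = (1 + b ^ 2) / 2 + (1 - b ^ 2) / 2 * ((1 + y) / (1 - y)) := by
    field_simp
    ring
  rw [key]
  have hv : ∀ v : ℝ, v ≤ (1 + y) / (1 - y) → (1 - b ^ 2) / 2 * v ≤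
      (1 - b ^ 2) / 2 * ((1 + y) / (1 - y)) := fun v h =>
    mul_le_mul_of_nonneg_left h (by nlinarith)
  rcases le_total 1 p with h1p | h1p
  · -- `p ≥ 1`
    have hyb : y ≤ b := by
      have := Real.rpow_le_rpow_of_exponent_ge hb hb1.le h1p
      rwa [Real.rpow_one] at this
    have h := Diam_F hy0 hyb hb1
    rw [hlog] at h
    have h2 : (1 + b) / (1 - b) ≤ p * ((1 + y) / (1 - y)) := by
      have : - Real.log b * ((1 + b) / (1 - b)) ≤ - Real.log b * (p * ((1 + y) / (1 - y))) := by
        calc - Real.log b * ((1 + b) / (1 - b)) ≤ -(p * Real.log b) * ((1 + y) / (1 - y)) := h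
          _ = - Real.log b * (p * ((1 + y) / (1 - y))) := by ring
      exact le_of_mul_le_mul_left this hℓ
    have h3 : (1 + b) / (1 - b) / p ≤ (1 + y) / (1 - y) := by
      rw [div_le_iff₀ hp]
      linarith
    have h4 := hv _ h3
    have h5 : (1 - b ^ 2) / 2 * ((1 + b) / (1 - b) / p) = (1 + b) ^ 2 / 2 * (1 / p) := by
      field_simp
      ring
    rw [h5] at h4
    have h6 : 1 / 2 ≤ 1 / p := one_div_le_one_div_of_le hp hp2
    have h7 : 2 / p = 2 * (1 / p) := by ring
    rw [h7]
    nlinarith [sq_nonneg (1 - b), mul_nonneg (sq_nonneg (1 - b)) (sub_nonneg.2 h6)]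
  · have hyb : b ≤ y := by
      have := Real.rpow_le_rpow_of_exponent_ge hb hb1.le h1p
      rwa [Real.rpow_one] at this
    have hD : 0 < 1 + 6 * b + b ^ 2 := by positivity
    rcases le_total (8 * b / (1 + 6 * b + b ^ 2)) p with h | h
    · have h3 : (1 + b) / (1 - b) ≤ (1 + y) / (1 - y) := by
        rw [div_le_div_iff₀ hb1' hy1']
        nlinarith
      have h4 := hv _ h3
      have h5 : (1 - b ^ 2) / 2 * ((1 + b) / (1 - b)) = (1 + b) ^ 2 / 2 := by
        field_simp
        ring
      rw [h5] at h4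
      rw [div_le_iff₀ hD] at h
      have h6 : 2 / p * b ≤ (1 + 6 * b + b ^ 2) / 4 := by
        rw [div_mul_eq_mul_div, div_le_div_iff₀ hp (by norm_num)]
        nlinarith
      nlinarith
    · have h1 := Diam_log_ge hy0 hy1.le
      rw [hlog] at h1
      have hpl : 0 < p * (- Real.log b) := mul_pos hp hℓ
      have h3 : 2 / (p * (- Real.log b)) ≤ (1 + y) / (1 - y) := by
        rw [div_le_div_iff₀ hpl hy1']
        rw [div_le_iff₀ (by linarith)] at h1
        nlinarith
      have h4 := hv _ h3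
      have h5 : (1 - b ^ 2) / 2 * (2 / (p * (- Real.log b))) =
          (1 - b ^ 2) / (- Real.log b) * (1 / p) := by
        have := hℓ.ne'
        field_simp
      rw [h5] at h4
      have h6 : 4 * b * (1 + b) ^ 2 / (1 + 6 * b + b ^ 2) ≤ (1 - b ^ 2) / (- Real.log b) := by
        rw [div_le_div_iff₀ hD hℓ]
        have h7 := Diam_log_le' hb hb1.le
        rw [le_div_iff₀ (by positivity)] at h7
        have : (1 + b) * (- Real.log b * (4 * b * (1 + b))) ≤
            (1 + b) * ((1 - b) * (1 + 6 * b + b ^ 2)) :=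
          mul_le_mul_of_nonneg_left h7 (by linarith)
        nlinarith
      have h8 : (1 + 6 * b + b ^ 2) / (8 * b) ≤ 1 / p := by
        rw [div_le_div_iff₀ (by positivity) hp]
        rw [le_div_iff₀ hD] at h
        linarith
      have h9 : (1 - b) ^ 2 / 4 ≤ ((1 - b ^ 2) / (- Real.log b) - 2 * b) * (1 / p) := by
        have g1 : 2 * b * (1 - b) ^ 2 / (1 + 6 * b + b ^ 2) ≤ (1 - b ^ 2) / (- Real.log b) - 2 * b := by
          have : 2 * b * (1 - b) ^ 2 / (1 + 6 * b + b ^ 2) =
              4 * b * (1 + b) ^ 2 / (1 + 6 * b + b ^ 2) - 2 * b := by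
            field_simp
            ring
          rw [this]
          linarith
        have g2 : (1 - b) ^ 2 / 4 = 2 * b * (1 - b) ^ 2 / (1 + 6 * b + b ^ 2) *
            ((1 + 6 * b + b ^ 2) / (8 * b)) := by
          field_simp
          ring
        rw [g2]
        have g3 : 0 ≤ 2 * b * (1 - b) ^ 2 / (1 + 6 * b + b ^ 2) := by positivity
        exact mul_le_mul g1 h8 (by positivity) (g3.trans g1)
      have h10 : 2 / p = 2 * (1 / p) := by ring
      rw [h10]
      nlinarith

/-- strict form after multiplication -/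
theorem diam_mul {b p : ℝ} (hb : 0 < b) (hb1 : b < 1) (hp : 0 < p) (hp2 : p ≤ 2) :
    3 / 4 * (1 + b ^ 2) * (1 - b) ^ 2 < (1 - b ^ 2 * b ^ p) / (1 - b ^ p) *
      ((1 - b ^ 2 * b ^ p) / (1 - b ^ p) - (1 + 2 / p) * b) := by
  have h := diam hb hb1 hp hp2
  have hy0 : 0 < b ^ p := Real.rpow_pos_of_pos hb p
  have hy1 : b ^ p < 1 := Real.rpow_lt_one hb.le hb1 hp
  have hb2 : 0 < (1 - b) ^ 2 := by
    have : 1 - b ≠ 0 := by linarith
    positivity
  rcases hp2.eq_or_lt with rfl | hp2'
  · have e : b ^ (2 : ℝ) = b ^ 2 := by norm_num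
    rw [e]
    rw [e] at hy1
    have hb3 : 0 < 1 - b ^ 2 := by linarith
    have e2 : (1 - b ^ 2 * b ^ 2) / (1 - b ^ 2) = 1 + b ^ 2 := by
      field_simp
      ring
    rw [e2]
    nlinarith [sq_nonneg b]
  · have hyb : b ^ 2 < b ^ p := by
      have := Real.rpow_lt_rpow_of_exponent_gt hb hb1 hp2'
      have e : b ^ (2 : ℝ) = b ^ 2 := by norm_num
      rwa [e] at this
    have h1 : 1 + b ^ 2 < (1 - b ^ 2 * b ^ p) / (1 - b ^ p) := by
      rw [lt_div_iff₀ (by linarith)]
      nlinarith
    calc 3 / 4 * (1 + b ^ 2) * (1 - b) ^ 2 = (1 + b ^ 2) * (3 / 4 * (1 - b) ^ 2) := by ring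
      _ < (1 - b ^ 2 * b ^ p) / (1 - b ^ p) * (3 / 4 * (1 - b) ^ 2) :=
        mul_lt_mul_of_pos_right h1 (by positivity)
      _ ≤ _ := mul_le_mul_of_nonneg_left h (by nlinarith [sq_nonneg b])

end Pool.Agent.W_bbc525_td
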