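import Pool.Agent.W_bbc525_td.Lam
import Pool.Agent.W_bbc525_td.Shape

/-!
# Two degrees: the function `λ r⁴ - r ^ L + A r² - c r + g` with double zeros at `1` and `β`
-/

set_option autoImplicit false

namespace Pool.Agent.W_bbc525_td

open Set Filter Topology

theorem Herm_neg {S : Set ℝ} {h : ℝ → ℝ} (hc : StrictConvexOn ℝ S h) {x y z : ℝ} (hx : x ∈ S)
    (hz : z ∈ S) (hxy : x < y) (hyz : y < z) (h1 : h x ≤ 0) (h2 : h z ≤ 0) : h y < 0 := by
  have hxz : 0 < z - x := by linarith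
  have hlt : x < z := hxy.trans hyz
  have := hc.2 hx hz hlt.ne (div_pos (sub_pos.2 hyz) hxz) (div_pos (sub_pos.2 hxy) hxz) (by
      field_simp
      ring)
  have e : ((z - y) / (z - x)) • x + ((y - x) / (z - x)) • z = y := by
    simp only [smul_eq_mul]
    field_simp
    ring
  rw [e] at this
  simp only [smul_eq_mul] at this
  have a1 : (z - y) / (z - x) * h x ≤ 0 :=
    mul_nonpos_of_nonneg_of_nonpos (div_nonneg (by linarith) hxz.le) h1
  have a2 : (y - x) / (z - x) * h z ≤ 0 :=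
    mul_nonpos_of_nonneg_of_nonpos (div_nonneg (by linarith) hxz.le) h2
  linarith

/-- the function -/
noncomputable def Herm_f (m L A c g lm r : ℝ) : ℝ := lm * r ^ m - r ^ L + A * r ^ (2 : ℝ) - c * r + g

section

variable {L A c g lm : ℝ}

theorem Herm_d1 {r : ℝ} (hr : 0 < r) :
    HasDerivAt (fun r : ℝ => lm * r ^ 4 - r ^ L + A * r ^ 2 - c * r + g)
      (4 * lm * r ^ 3 - L * r ^ (L - 1) + 2 * A * r - c) r := by
  have h := ((((hasDerivAt_pow 4 r).const_mul lm).sub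
    (Real.hasDerivAt_rpow_const (p := L) (Or.inl hr.ne'))).add
      ((hasDerivAt_pow 2 r).const_mul A)).sub ((hasDerivAt_id r).const_mul c)
  refine (h.add_const g).congr_deriv ?_
  norm_num
  ring

theorem Herm_d2 {r : ℝ} (hr : 0 < r) :
    HasDerivAt (fun r : ℝ => 4 * lm * r ^ 3 - L * r ^ (L - 1) + 2 * A * r - c)
      (12 * lm * r ^ 2 - L * (L - 1) * r ^ (L - 2) + 2 * A) r := by
  have h := (((hasDerivAt_pow 3 r).const_mul (4 * lm)).sub
    ((Real.hasDerivAt_rpow_const (p := L - 1) (Or.inl hr.ne')).const_mul L)).add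
      ((hasDerivAt_id r).const_mul (2 * A))
  refine (h.sub_const c).congr_deriv ?_
  have e : L - 1 - 1 = L - 2 := by ring
  rw [e]
  norm_num
  ring

/-- property (P) -/
theorem Herm_P (hL : 2 < L) (hL4 : L < 4) (hlm : 0 < lm) {x y z : ℝ} (hx : 0 < x) (hxy : x < y)
    (hyz : y < z) (h1 : 12 * lm * x ^ 2 - L * (L - 1) * x ^ (L - 2) + 2 * A ≤ 0)
    (h2 : 12 * lm * z ^ 2 - L * (L - 1) * z ^ (L - 2) + 2 * A ≤ 0) :
    12 * lm * y ^ 2 - L * (L - 1) * y ^ (L - 2) + 2 * A < 0 := by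
  have hp : 0 < L - 2 := by linarith
  have hq : 1 < 2 / (L - 2) := by
    rw [lt_div_iff₀ hp]
    linarith
  have hc : StrictConvexOn ℝ (Ici (0 : ℝ))
      (fun s : ℝ => 12 * lm * s ^ (2 / (L - 2)) - L * (L - 1) * s + 2 * A) := by
    have c1 := (strictConvexOn_rpow hq)
    refine ⟨convex_Ici 0, fun s hs t ht hst a b ha hb hab => ?_⟩
    have := c1.2 hs ht hst ha hb hab
    simp only [smul_eq_mul] at this ⊢
    have hm : 0 < 12 * lm := by positivity
    have := mul_lt_mul_of_pos_left this hm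
    have e : 2 * A = a * (2 * A) + b * (2 * A) := by rw [← add_mul, hab, one_mul]
    nlinarith
  have key : ∀ r : ℝ, 0 < r → (r ^ (L - 2)) ^ (2 / (L - 2)) = r ^ 2 := by
    intro r hr
    rw [← Real.rpow_mul hr.le, mul_div_cancel₀ _ hp.ne']
    norm_num
  have hy : 0 < y := hx.trans hxy
  have hz : 0 < z := hy.trans hyz
  have := Herm_neg hc (x := x ^ (L - 2)) (y := y ^ (L - 2)) (z := z ^ (L - 2))
    (Real.rpow_nonneg hx.le _) (Real.rpow_nonneg hz.le _)
    (Real.rpow_lt_rpow hx.le hxy hp) (Real.rpow_lt_rpow hy.le hyz hp)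
    (by simpa only [key x hx] using h1) (by simpa only [key z hz] using h2)
  simpa only [key y hy] using this

/-- signs of the coefficients from the behaviour at `0` -/
theorem Herm_sign (hL : 2 < L) {a : ℝ} (ha : 0 < a)
    (h2 : ∀ x, 0 < x → x ≤ a → 0 ≤ 12 * lm * x ^ 2 - L * (L - 1) * x ^ (L - 2) + 2 * A)
    (h1 : ∀ x, 0 < x → x ≤ a → 4 * lm * x ^ 3 - L * x ^ (L - 1) + 2 * A * x - c ≤ 0) :
    0 ≤ A ∧ 0 ≤ c := by
  have hn : ∀ᶠ x in 𝓝[>] (0 : ℝ), 0 < x ∧ x ≤ a := by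
    filter_upwards [Ioc_mem_nhdsGT ha] with x hx
    exact hx
  constructor
  · have t : Tendsto (fun x : ℝ => 12 * lm * x ^ 2 - L * (L - 1) * x ^ (L - 2) + 2 * A) (𝓝[>] 0)
        (𝓝 (12 * lm * 0 ^ 2 - L * (L - 1) * 0 ^ (L - 2) + 2 * A)) := by
      apply Tendsto.mono_left _ nhdsWithin_le_nhds
      apply ContinuousAt.tendsto
      have : ContinuousAt (fun x : ℝ => x ^ (L - 2)) 0 :=
        Real.continuousAt_rpow_const _ _ (Or.inr (by linarith))
      fun_prop
    have := ge_of_tendsto t (hn.mono fun x hx => h2 x hx.1 hx.2)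
    rw [Real.zero_rpow (by linarith)] at this
    linarith
  · have t : Tendsto (fun x : ℝ => 4 * lm * x ^ 3 - L * x ^ (L - 1) + 2 * A * x - c) (𝓝[>] 0)
        (𝓝 (4 * lm * 0 ^ 3 - L * 0 ^ (L - 1) + 2 * A * 0 - c)) := by
      apply Tendsto.mono_left _ nhdsWithin_le_nhds
      apply ContinuousAt.tendsto
      have : ContinuousAt (fun x : ℝ => x ^ (L - 1)) 0 :=
        Real.continuousAt_rpow_const _ _ (Or.inr (by linarith))
      fun_prop
    have := le_of_tendsto t (hn.mono fun x hx => h1 x hx.1 hx.2)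
    rw [Real.zero_rpow (by linarith)] at this
    linarith

/-- extension to `r = 0` -/
theorem Herm_zero (hL : 2 < L)
    (h : ∀ x, 0 < x → 0 ≤ lm * x ^ 4 - x ^ L + A * x ^ 2 - c * x + g) {x : ℝ} (hx : 0 ≤ x) :
    0 ≤ lm * x ^ 4 - x ^ L + A * x ^ 2 - c * x + g := by
  rcases hx.eq_or_lt with rfl | hx'
  · have t : Tendsto (fun x : ℝ => lm * x ^ 4 - x ^ L + A * x ^ 2 - c * x + g) (𝓝[>] 0)
        (𝓝 (lm * 0 ^ 4 - 0 ^ L + A * 0 ^ 2 - c * 0 + g)) := by
      apply Tendsto.mono_left _ nhdsWithin_le_nhds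
      apply ContinuousAt.tendsto
      have : ContinuousAt (fun x : ℝ => x ^ L) 0 :=
        Real.continuousAt_rpow_const _ _ (Or.inr (by linarith))
      fun_prop
    exact ge_of_tendsto t (eventually_nhdsWithin_of_forall fun x hx => h x hx)
  · exact h x hx'

end

/-- **The function `λ r⁴ - r ^ L + A r² - c r + g`.** -/
theorem herm {L β : ℝ} (hL : 2 < L) (hL4 : L ≤ 4) (hβ : 0 < β) :
    ∃ A c g : ℝ, 0 ≤ A ∧ 0 ≤ c ∧
      lam L β - 1 + A - c + g = 0 ∧
      4 * lam L β - L + 2 * A - c = 0 ∧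
      lam L β * β ^ 4 - β ^ L + A * β ^ 2 - c * β + g = 0 ∧
      4 * lam L β * β ^ 4 - L * β ^ L + 2 * A * β ^ 2 - c * β = 0 ∧
      (β = 1 → 12 * lam L β - L * (L - 1) + 2 * A = 0 ∧ 24 * lam L β = L * (L - 1) * (L - 2)) ∧
      ∀ r, 0 ≤ r → 0 ≤ lam L β * r ^ 4 - r ^ L + A * r ^ 2 - c * r + g := by
  rcases hL4.eq_or_lt with rfl | hL4'
  · -- `L = 4`
    have h4 : ∀ r : ℝ, r ^ (4 : ℝ) = r ^ 4 := fun r => by norm_num
    have hl : lam 4 β = 1 := by
      unfold lam
      split_ifs with h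
      · norm_num
      · have e3 : β ^ ((4 : ℝ) - 1) = β ^ 3 := by
          rw [show ((4 : ℝ) - 1) = (3 : ℕ) by norm_num, Real.rpow_natCast]
        rw [e3, h4]
        have a1 : 1 - β ≠ 0 := sub_ne_zero.2 (Ne.symm h)
        have a3 : 1 + β ≠ 0 := by positivity
        field_simp
        ring
    refine ⟨0, 0, 0, le_rfl, le_rfl, ?_, ?_, ?_, ?_, ?_, ?_⟩
    · rw [hl]; norm_num
    · rw [hl]; norm_num
    · rw [hl, h4]; ring
    · rw [hl, h4]; ring
    · rw [hl]; norm_num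
    · intro r _
      rw [hl, h4]
      ring_nf
      exact le_rfl
  have hlm := lam_pos hL hL4 hβ
  have hp : 0 < L - 2 := by linarith
  by_cases hb : β = 1
  · subst hb
    have hl : 24 * lam L 1 = L * (L - 1) * (L - 2) := by
      unfold lam
      rw [if_pos rfl]
      ring
    set lm := lam L 1 with hlmdef
    set A := (L * (L - 1) - 12 * lm) / 2 with hA
    set c := 4 * lm - L + 2 * A with hc
    set g := c - A - lm + 1 with hg
    have n2 : ∀ x, 0 < x → 0 ≤ 12 * lm * x ^ 2 - L * (L - 1) * x ^ (L - 2) + 2 * A := by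
      intro x hx
      have hs : 0 < x ^ (L - 2) := Real.rpow_pos_of_pos hx _
      have hB := one_add_mul_self_le_rpow_one_add (s := x ^ (L - 2) - 1) (by linarith)
        (p := 2 / (L - 2)) (by
          rw [le_div_iff₀ hp]
          linarith)
      have e : (1 + (x ^ (L - 2) - 1)) ^ (2 / (L - 2)) = x ^ 2 := by
        rw [add_sub_cancel, ← Real.rpow_mul hx.le, mul_div_cancel₀ _ hp.ne']
        norm_num
      rw [e] at hB
      have h2 : 12 * lm * (1 + 2 / (L - 2) * (x ^ (L - 2) - 1)) ≤ 12 * lm * x ^ 2 :=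
        mul_le_mul_of_nonneg_left hB (by positivity)
      have h3 : 12 * lm * (2 / (L - 2)) = L * (L - 1) := by
        field_simp
        linarith
      have h4 : 12 * lm * (1 + 2 / (L - 2) * (x ^ (L - 2) - 1)) =
          12 * lm + L * (L - 1) * (x ^ (L - 2) - 1) := by
        rw [← h3]
        ring
      rw [h4] at h2
      have h5 : 2 * A = L * (L - 1) - 12 * lm := by
        rw [hA]
        ring
      rw [h5]
      nlinarith
    have f1 : lm * (1 : ℝ) ^ 4 - (1 : ℝ) ^ L + A * 1 ^ 2 - c * 1 + g = 0 := by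
      rw [Real.one_rpow, hg]
      ring
    have f2 : 4 * lm * (1 : ℝ) ^ 3 - L * (1 : ℝ) ^ (L - 1) + 2 * A * 1 - c = 0 := by
      rw [Real.one_rpow, hc]
      ring
    have main := fun ω (hω : (1 : ℝ) < ω) => convex_zero (ω := ω)
      (f := fun r : ℝ => lm * r ^ 4 - r ^ L + A * r ^ 2 - c * r + g)
      (f' := fun r : ℝ => 4 * lm * r ^ 3 - L * r ^ (L - 1) + 2 * A * r - c)
      (f'' := fun r : ℝ => 12 * lm * r ^ 2 - L * (L - 1) * r ^ (L - 2) + 2 * A)
      (fun x hx => Herm_d1 hx.1) (fun x hx => Herm_d2 hx.1) (fun x hx => n2 x hx.1) one_pos hω f1 f2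
    obtain ⟨sA, sc⟩ := Herm_sign (L := L) (A := A) (c := c) (lm := lm) hL one_pos
      (fun x hx _ => n2 x hx) ((main 2 one_lt_two).2)
    refine ⟨A, c, g, sA, sc, by rw [hg]; ring, by rw [hc]; ring, ?_, ?_, fun _ => ⟨?_, hl⟩, ?_⟩
    · simpa using f1
    · rw [Real.one_rpow, hc]
      ring
    · rw [hA]
      ring
    · intro r hr
      apply Herm_zero hL _ hr
      intro x hx
      exact (main (max x 1 + 1) (by linarith [le_max_right x 1])).1 x hx
        (by linarith [le_max_left x 1])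
  · have a1 : 1 - β ≠ 0 := sub_ne_zero.2 (Ne.symm hb)
    have a3 : 1 + β ≠ 0 := by positivity
    set lm := lam L β with hlmdef
    set y := β ^ (L - 2) with hy
    have eL : β ^ L = β ^ 2 * y := rpow_L hβ
    have eL1 : β ^ (L - 1) = β * y := rpow_L1 hβ
    have hlam : 2 * (1 - β) ^ 3 * (1 + β) * lm = L * (1 + β * y) * (1 - β) - 2 * (1 - β ^ 2 * y) := by
      rw [hlmdef]
      unfold lam
      rw [if_neg hb, eL, eL1]
      field_simp
    obtain ⟨A, hA⟩ : ∃ A, 2 * (1 - β) * A = 4 * lm * β ^ 3 - L * (β * y) - 4 * lm + L :=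
      ⟨(4 * lm * β ^ 3 - L * (β * y) - 4 * lm + L) / (2 * (1 - β)), by field_simp⟩
    obtain ⟨c, hc⟩ : ∃ c, c = 4 * lm - L + 2 * A := ⟨_, rfl⟩
    obtain ⟨g, hg⟩ : ∃ g, g = c - A - lm + 1 := ⟨_, rfl⟩
    have e1 : lm - 1 + A - c + g = 0 := by rw [hg]; ring
    have e2 : 4 * lm - L + 2 * A - c = 0 := by rw [hc]; ring
    have e4 : 4 * lm * β ^ 3 - L * β ^ (L - 1) + 2 * A * β - c = 0 := by
      rw [eL1, hc]
      linear_combination - hA
    have e3 : lm * β ^ 4 - β ^ L + A * β ^ 2 - c * β + g = 0 := by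
      rw [eL, hg, hc]
      linear_combination (1 / 2) * hlam + ((1 - β) / 2) * hA
    have f1 : lm * (1 : ℝ) ^ 4 - (1 : ℝ) ^ L + A * 1 ^ 2 - c * 1 + g = 0 := by
      rw [Real.one_rpow]
      linarith
    have f2 : 4 * lm * (1 : ℝ) ^ 3 - L * (1 : ℝ) ^ (L - 1) + 2 * A * 1 - c = 0 := by
      rw [Real.one_rpow]
      linarith
    have main : ∀ ω, max 1 β < ω →
        (∀ x, 0 < x → x < ω → 0 ≤ lm * x ^ 4 - x ^ L + A * x ^ 2 - c * x + g) ∧
        (∀ x, 0 < x → x ≤ min 1 β → 0 < 12 * lm * x ^ 2 - L * (L - 1) * x ^ (L - 2) + 2 * A) ∧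
        (∀ x, 0 < x → x ≤ min 1 β → 4 * lm * x ^ 3 - L * x ^ (L - 1) + 2 * A * x - c ≤ 0) := by
      intro ω hω
      rcases lt_or_gt_of_ne hb with h | h
      · have := four_zero (ω := ω)
          (f := fun r : ℝ => lm * r ^ 4 - r ^ L + A * r ^ 2 - c * r + g)
          (f' := fun r : ℝ => 4 * lm * r ^ 3 - L * r ^ (L - 1) + 2 * A * r - c)
          (f'' := fun r : ℝ => 12 * lm * r ^ 2 - L * (L - 1) * r ^ (L - 2) + 2 * A)
          (fun x hx => Herm_d1 hx.1) (fun x hx => Herm_d2 hx.1)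
          (fun x y z hx hxy hyz _ h1 h2 => Herm_P hL hL4' hlm hx hxy hyz h1 h2) hβ h
          (lt_of_le_of_lt (le_max_left 1 β) hω) e3 e4 f1 f2
        rw [min_eq_right h.le]
        exact this
      · have := four_zero (ω := ω)
          (f := fun r : ℝ => lm * r ^ 4 - r ^ L + A * r ^ 2 - c * r + g)
          (f' := fun r : ℝ => 4 * lm * r ^ 3 - L * r ^ (L - 1) + 2 * A * r - c)
          (f'' := fun r : ℝ => 12 * lm * r ^ 2 - L * (L - 1) * r ^ (L - 2) + 2 * A)
          (fun x hx => Herm_d1 hx.1) (fun x hx => Herm_d2 hx.1)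
          (fun x y z hx hxy hyz _ h1 h2 => Herm_P hL hL4' hlm hx hxy hyz h1 h2) one_pos h
          (lt_of_le_of_lt (le_max_right 1 β) hω) f1 f2 e3 e4
        rw [min_eq_left h.le]
        exact this
    have m0 := main (max 1 β + 1) (by linarith)
    obtain ⟨sA, sc⟩ := Herm_sign (L := L) (A := A) (c := c) (lm := lm) hL (lt_min one_pos hβ)
      (fun x hx hx2 => (m0.2.1 x hx hx2).le) m0.2.2
    refine ⟨A, c, g, sA, sc, e1, e2, e3, ?_, fun h => absurd h hb, ?_⟩
    · rw [eL]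
      rw [eL1] at e4
      linear_combination β * e4
    · intro r hr
      apply Herm_zero hL _ hr
      intro x hx
      exact (main (max x (max 1 β) + 1) (by linarith [le_max_right x (max 1 β)])).1 x hx
        (by linarith [le_max_left x (max 1 β)])

end Pool.Agent.W_bbc525_td
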