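import Pool.Agent.W_bbc525_td.Diam

/-!
# Two degrees: the constants `λ`, `κ`, `Δ`
-/

set_option autoImplicit false

namespace Pool.Agent.W_bbc525_td

open Set

/-- the coefficient `λ` -/
noncomputable def lam (L β : ℝ) : ℝ :=
  if β = 1 then L * (L - 1) * (L - 2) / 24 else
    (L * (1 + β ^ (L - 1)) * (1 - β) - 2 * (1 - β ^ L)) / (2 * (1 - β) ^ 3 * (1 + β))

/-- the slope `κ` of the chord -/
noncomputable def kap (L β : ℝ) : ℝ := if β = 1 then L / 2 else (1 - β ^ L) / (1 - β ^ 2)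

/-- the divided difference `Δ` -/
noncomputable def del (L β : ℝ) : ℝ :=
  if β = 1 then (L - 2) / 2 else (1 - β ^ (L - 2)) / (1 - β ^ 2)

theorem rpow_L {L β : ℝ} (hβ : 0 < β) : β ^ L = β ^ 2 * β ^ (L - 2) := by
  have : β ^ (2 : ℝ) = β ^ 2 := by norm_num
  rw [← this, ← Real.rpow_add hβ]
  congr 1
  ring

theorem rpow_L1 {L β : ℝ} (hβ : 0 < β) : β ^ (L - 1) = β * β ^ (L - 2) := by
  have : β ^ (1 : ℝ) = β := Real.rpow_one β
  conv_rhs => rw [← this, ← Real.rpow_mul hβ.le, one_mul, ← Real.rpow_add hβ]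
  congr 1
  ring

theorem Lam_lt {L β : ℝ} (hL : 2 < L) (hL4 : L ≤ 4) (hβ : 0 < β) (h1 : β < 1) :
    3 * (L / 2 - 1) * (1 + β ^ 2) * (del L β) ^ 2 < 4 * lam L β * kap L β := by
  have hne : β ≠ 1 := h1.ne
  unfold lam kap del
  rw [if_neg hne, if_neg hne, if_neg hne, rpow_L1 (L := L) hβ, rpow_L (L := L) hβ]
  have h := diam_mul hβ h1 (p := L - 2) (by linarith) (by linarith)
  set y := β ^ (L - 2) with hy
  have hy1 : y < 1 := Real.rpow_lt_one hβ.le h1 (by linarith)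
  have hp : 0 < L - 2 := by linarith
  have a1 : 0 < 1 - β := by linarith
  have a2 : 0 < 1 - y := by linarith
  have a3 : 0 < 1 + β := by linarith
  have a4 : 0 < 1 - β ^ 2 := by nlinarith
  have e1 : 3 * (L / 2 - 1) * (1 + β ^ 2) * ((1 - y) / (1 - β ^ 2)) ^ 2 =
      (3 / 4 * (1 + β ^ 2) * (1 - β) ^ 2) *
        (2 * (L - 2) * (1 - y) ^ 2 / ((1 - β) ^ 2 * (1 - β ^ 2) ^ 2)) := by
    field_simp
    ring
  have e2 : 4 * ((L * (1 + β * y) * (1 - β) - 2 * (1 - β ^ 2 * y)) / (2 * (1 - β) ^ 3 * (1 + β))) *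
      ((1 - β ^ 2 * y) / (1 - β ^ 2)) =
      ((1 - β ^ 2 * y) / (1 - y) * ((1 - β ^ 2 * y) / (1 - y) - (1 + 2 / (L - 2)) * β)) *
        (2 * (L - 2) * (1 - y) ^ 2 / ((1 - β) ^ 2 * (1 - β ^ 2) ^ 2)) := by
    have f1 : L * (1 + β * y) * (1 - β) - 2 * (1 - β ^ 2 * y) =
        (L - 2) * (1 - y) * ((1 - β ^ 2 * y) / (1 - y) - (1 + 2 / (L - 2)) * β) := by
      field_simp
      ring
    have f2 : (1 - β ^ 2) = (1 - β) * (1 + β) := by ring
    rw [f1, f2]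
    set w := (1 - β ^ 2 * y) / (1 - y) - (1 + 2 / (L - 2)) * β
    field_simp
    ring
  rw [e1, e2]
  apply mul_lt_mul_of_pos_right h
  positivity

theorem Lam_gt {L β : ℝ} (hL : 2 < L) (hL4 : L ≤ 4) (h1 : 1 < β) :
    3 * (L / 2 - 1) * (1 + β ^ 2) * (del L β) ^ 2 < 4 * lam L β * kap L β := by
  have hβ : 0 < β := by linarith
  have hc : 0 < β⁻¹ := inv_pos.2 hβ
  have hc1 : β⁻¹ < 1 := inv_lt_one_of_one_lt₀ h1
  have h := Lam_lt hL hL4 hc hc1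
  have hne : β ≠ 1 := h1.ne'
  have hne' : β⁻¹ ≠ 1 := hc1.ne
  unfold lam kap del at h ⊢
  rw [if_neg hne, if_neg hne, if_neg hne, rpow_L1 (L := L) hβ, rpow_L (L := L) hβ]
  rw [if_neg hne', if_neg hne', if_neg hne', rpow_L1 (L := L) hc, rpow_L (L := L) hc, Real.inv_rpow hβ.le] at h
  set y := β ^ (L - 2) with hy
  have hy0 : 0 < y := Real.rpow_pos_of_pos hβ _
  have hy1 : 1 < y := Real.one_lt_rpow h1 (by linarith)
  have a1 : β - 1 ≠ 0 := by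
    have : 0 < β - 1 := by linarith
    exact this.ne'
  have a1' : 1 - β ≠ 0 := by
    have : 1 - β < 0 := by linarith
    exact this.ne
  have a3 : 1 + β ≠ 0 := by positivity
  have a4 : β ^ 2 - 1 ≠ 0 := by
    have : 0 < β ^ 2 - 1 := by nlinarith
    exact this.ne'
  have a4' : 1 - β ^ 2 ≠ 0 := by
    have : 1 - β ^ 2 < 0 := by nlinarith
    exact this.ne
  have m : 0 < y ^ 2 * β ^ 2 := by positivity
  have h2 := mul_lt_mul_of_pos_right h m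
  have e1 : 3 * (L / 2 - 1) * (1 + β⁻¹ ^ 2) * ((1 - y⁻¹) / (1 - β⁻¹ ^ 2)) ^ 2 * (y ^ 2 * β ^ 2) =
      3 * (L / 2 - 1) * (1 + β ^ 2) * ((1 - y) / (1 - β ^ 2)) ^ 2 * β ^ 4 := by
    have g1 : (1 - y⁻¹) / (1 - β⁻¹ ^ 2) = (1 - y) / (1 - β ^ 2) * (β ^ 2 / y) := by
      have : 1 - β⁻¹ ^ 2 = (β ^ 2 - 1) / β ^ 2 := by field_simp
      rw [this]
      field_simp
      ring
    rw [g1]
    field_simp
    ring
  have e2 : 4 * ((L * (1 + β⁻¹ * y⁻¹) * (1 - β⁻¹) - 2 * (1 - β⁻¹ ^ 2 * y⁻¹)) /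
      (2 * (1 - β⁻¹) ^ 3 * (1 + β⁻¹))) * ((1 - β⁻¹ ^ 2 * y⁻¹) / (1 - β⁻¹ ^ 2)) * (y ^ 2 * β ^ 2) =
      4 * ((L * (1 + β * y) * (1 - β) - 2 * (1 - β ^ 2 * y)) / (2 * (1 - β) ^ 3 * (1 + β))) *
        ((1 - β ^ 2 * y) / (1 - β ^ 2)) * β ^ 4 := by
    have g1 : (1 - β⁻¹ ^ 2 * y⁻¹) / (1 - β⁻¹ ^ 2) = (1 - β ^ 2 * y) / (1 - β ^ 2) * (1 / y) := by
      have : 1 - β⁻¹ ^ 2 = (β ^ 2 - 1) / β ^ 2 := by field_simp
      rw [this]
      field_simp
      ring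
    have g2 : (L * (1 + β⁻¹ * y⁻¹) * (1 - β⁻¹) - 2 * (1 - β⁻¹ ^ 2 * y⁻¹)) /
        (2 * (1 - β⁻¹) ^ 3 * (1 + β⁻¹)) =
        (L * (1 + β * y) * (1 - β) - 2 * (1 - β ^ 2 * y)) / (2 * (1 - β) ^ 3 * (1 + β)) *
          (β ^ 2 / y) := by
      have f1 : L * (1 + β⁻¹ * y⁻¹) * (1 - β⁻¹) - 2 * (1 - β⁻¹ ^ 2 * y⁻¹) =
          - (L * (1 + β * y) * (1 - β) - 2 * (1 - β ^ 2 * y)) / (β ^ 2 * y) := by
        field_simp
        ring
      have f2 : 2 * (1 - β⁻¹) ^ 3 * (1 + β⁻¹) = - (2 * (1 - β) ^ 3 * (1 + β)) / β ^ 4 := by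
        field_simp
        ring
      rw [f1, f2]
      set N := L * (1 + β * y) * (1 - β) - 2 * (1 - β ^ 2 * y)
      field_simp
    rw [g1, g2]
    field_simp
  rw [e1, e2] at h2
  exact lt_of_mul_lt_mul_right h2 (by positivity)

/-- **The inequality between the constants.** -/
theorem lam_ineq {L β : ℝ} (hL : 2 < L) (hL4 : L ≤ 4) (hβ : 0 < β) :
    3 * (L / 2 - 1) * (1 + β ^ 2) * (del L β) ^ 2 < 4 * lam L β * kap L β := by
  rcases lt_trichotomy β 1 with h | h | h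
  · exact Lam_lt hL hL4 hβ h
  · subst h
    unfold lam kap del
    rw [if_pos rfl, if_pos rfl, if_pos rfl]
    have hp : 0 < L - 2 := by linarith
    have : 4 * (L * (L - 1) * (L - 2) / 24) * (L / 2) -
        3 * (L / 2 - 1) * (1 + 1 ^ 2) * ((L - 2) / 2) ^ 2 =
        (L - 2) / 12 * ((L - 2) * ((L - 4) ^ 2 + 4) + 4) := by ring
    have h2 : 0 < (L - 2) / 12 * ((L - 2) * ((L - 4) ^ 2 + 4) + 4) := by positivity
    linarith
  · exact Lam_gt hL hL4 h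

theorem kap_pos {L β : ℝ} (hL : 2 < L) (hβ : 0 < β) : 0 < kap L β := by
  unfold kap
  split_ifs with h
  · linarith
  · rcases lt_or_gt_of_ne h with h1 | h1
    · have := Real.rpow_lt_one hβ.le h1 (by linarith : 0 < L)
      exact div_pos (by linarith) (by nlinarith)
    · have := Real.one_lt_rpow h1 (by linarith : 0 < L)
      exact div_pos_of_neg_of_neg (by linarith) (by nlinarith)

theorem del_pos {L β : ℝ} (hL : 2 < L) (hβ : 0 < β) : 0 < del L β := by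
  unfold del
  split_ifs with h
  · linarith
  · rcases lt_or_gt_of_ne h with h1 | h1
    · have := Real.rpow_lt_one hβ.le h1 (by linarith : 0 < L - 2)
      exact div_pos (by linarith) (by nlinarith)
    · have := Real.one_lt_rpow h1 (by linarith : 0 < L - 2)
      exact div_pos_of_neg_of_neg (by linarith) (by nlinarith)

theorem lam_pos {L β : ℝ} (hL : 2 < L) (hL4 : L ≤ 4) (hβ : 0 < β) : 0 < lam L β := by
  have h := lam_ineq hL hL4 hβ
  have h1 := kap_pos hL hβ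
  have h2 : 0 ≤ 3 * (L / 2 - 1) * (1 + β ^ 2) * (del L β) ^ 2 := by
    have : 0 ≤ L / 2 - 1 := by linarith
    positivity
  by_contra hcon
  push Not at hcon
  have : 4 * lam L β * kap L β ≤ 0 := mul_nonpos_of_nonpos_of_nonneg (by linarith) h1.le
  linarith

end Pool.Agent.W_bbc525_td
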