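import Pool.Agent.W_bbc525_td.Touch

/-!
# Two degrees: the point of contact
-/

set_option autoImplicit false

namespace Pool.Agent.W_bbc525_td

open Set Filter Topology Pool.Agent.W_MP_bbc525_pr

section

variable {k l : ℕ} {a b q : ℝ}

/-- `X S''(X)` -/
noncomputable def HH (k l : ℕ) (a b q T X : ℝ) : ℝ :=
  q / (1 - q * X) - T * (a * ((k - 1 : ℕ) * X ^ (k - 1)) + b * ((l - 1 : ℕ) * X ^ (l - 1)))

theorem SS''_eq (hk : 2 ≤ k) (hkl : k < l) (hq : 0 < q) {T X : ℝ} (hX : 0 < X) (hX1 : X < 1 / q) :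
    SS'' k l a b q T X = HH k l a b q T X / X := by
  have h1 := one_sub_pos hq hX1
  unfold SS'' dd'' Ph'' HH
  have e1 : X ^ (k - 1) = X ^ (k - 1 - 1) * X := by
    rw [← pow_succ]
    congr 1
    omega
  have e2 : X ^ (l - 1) = X ^ (l - 1 - 1) * X := by
    rw [← pow_succ]
    congr 1
    omega
  rw [e1, e2]
  field_simp

theorem hasDerivAt_HH (hq : 0 < q) (T : ℝ) {X : ℝ} (hX1 : X < 1 / q) :
    HasDerivAt (HH k l a b q T) (q ^ 2 / (1 - q * X) ^ 2 -
      T * (a * ((k - 1 : ℕ) * ((k - 1 : ℕ) * X ^ (k - 1 - 1))) +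
        b * ((l - 1 : ℕ) * ((l - 1 : ℕ) * X ^ (l - 1 - 1))))) X := by
  have h1 := one_sub_pos hq hX1
  have l1 : HasDerivAt (fun X : ℝ => q * X) q X := by
    simpa using (hasDerivAt_id X).const_mul q
  have l2 : HasDerivAt (fun X : ℝ => 1 - q * X) (-q) X := l1.const_sub 1
  have d1 : HasDerivAt (fun X : ℝ => q / (1 - q * X)) (q ^ 2 / (1 - q * X) ^ 2) X := by
    refine ((hasDerivAt_const X q).div l2 h1.ne').congr_deriv ?_
    field_simp
    ring
  exact d1.sub (((((hasDerivAt_pow (k - 1) X).const_mul ((k - 1 : ℕ) : ℝ)).const_mul a).add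
    (((hasDerivAt_pow (l - 1) X).const_mul ((l - 1 : ℕ) : ℝ)).const_mul b)).const_mul T)

theorem Touch2_zero (hk : 2 ≤ k) (hkl : k < l) (ha : 0 < a) (hb : 0 < b) (hab : a + b = 1)
    (hq : 0 < q) (hq1 : q < 1) {T : ℝ} (hT : 0 < T)
    (hS : ∀ X, 0 ≤ X → X ≤ 1 / q → 0 ≤ SS k l a b q T X) : SS k l a b q T 0 ≠ 0 := by
  intro h0
  have hone := one_lt_inv' hq hq1
  set x₁ := min (1 : ℝ) (Real.exp (- T / q)) / 2 with hx1
  have e0 := Real.exp_pos (- T / q)
  have hx0 : 0 < x₁ := by positivity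
  have hx1' : x₁ < 1 := by
    have := min_le_left (1 : ℝ) (Real.exp (- T / q))
    rw [hx1]
    linarith
  have hx2 : x₁ < Real.exp (- T / q) := by
    have := min_le_right (1 : ℝ) (Real.exp (- T / q))
    rw [hx1]
    linarith
  obtain ⟨c, hc, hc'⟩ := exists_hasDerivAt_eq_slope (SS k l a b q T) (SS' k l a b q T) hx0
    ((continuousOn_SS hq hq1 T).mono (Icc_subset_Icc le_rfl (hx1'.trans hone).le))
    (fun Y hY => hasDerivAt_SS hk hkl hq hq1 T hY.1 (hY.2.trans (hx1'.trans hone)))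
  have hcp := hc.1
  have hc1 : c < 1 := hc.2.trans hx1'
  have hneg : SS' k l a b q T c < 0 := by
    unfold SS' dd' Ph'
    have g1 : Real.log c < - T / q := by
      rw [← Real.log_exp (- T / q)]
      exact Real.log_lt_log hcp (hc.2.trans hx2)
    have g2 : Real.log (1 - q) ≤ Real.log (1 - q * c) := by
      apply Real.log_le_log (by linarith)
      nlinarith
    have g3 : 0 ≤ c ^ (k - 1) := pow_nonneg hcp.le _
    have g4 : 0 ≤ c ^ (l - 1) := pow_nonneg hcp.le _
    have g5 : -1 ≤ a * (c ^ (k - 1) - 1) + b * (c ^ (l - 1) - 1) := by nlinarith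
    have g6 : -T ≤ T * (a * (c ^ (k - 1) - 1) + b * (c ^ (l - 1) - 1)) := by nlinarith
    have g7 : q * (Real.log c - Real.log (1 - q * c) + Real.log (1 - q)) < q * (- T / q) :=
      mul_lt_mul_of_pos_left (by linarith) hq
    have g8 : q * (- T / q) = - T := by field_simp
    linarith
  rw [hc', h0, div_lt_iff₀ (by linarith)] at hneg
  have := hS x₁ hx0.le (hx1'.trans hone).le
  linarith

theorem Touch2_end (hk : 2 ≤ k) (hkl : k < l) (ha : 0 < a) (hb : 0 < b)
    (hq : 0 < q) (hq1 : q < 1) {T : ℝ} (hT : 0 < T)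
    (hS : ∀ X, 0 ≤ X → X ≤ 1 / q → 0 ≤ SS k l a b q T X) : SS k l a b q T (1 / q) ≠ 0 := by
  intro h0
  have hone := one_lt_inv' hq hq1
  have hq' : 0 < 1 - q := by linarith
  set M := a * (1 / q) ^ (k - 1) + b * (1 / q) ^ (l - 1) with hM
  set y := min ((1 - q) * Real.exp (- (T * M) / q)) (1 - q) / 2 with hy
  have e0 := Real.exp_pos (- (T * M) / q)
  have hy0 : 0 < y := by positivity
  have hy1 : y < (1 - q) * Real.exp (- (T * M) / q) := by
    have := min_le_left ((1 - q) * Real.exp (- (T * M) / q)) (1 - q)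
    have h2 : 0 < (1 - q) * Real.exp (- (T * M) / q) := by positivity
    rw [hy]
    linarith
  have hy2 : y < 1 - q := by
    have := min_le_right ((1 - q) * Real.exp (- (T * M) / q)) (1 - q)
    rw [hy]
    linarith
  -- the point `x₁ = (1 - y) / q`
  set x₁ := (1 - y) / q with hx1
  have hx1a : 1 < x₁ := by
    rw [hx1, lt_div_iff₀ hq]
    linarith
  have hx1b : x₁ < 1 / q := by
    rw [hx1]
    exact div_lt_div_of_pos_right (by linarith) hq
  obtain ⟨c, hc, hc'⟩ := exists_hasDerivAt_eq_slope (SS k l a b q T) (SS' k l a b q T) hx1b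
    ((continuousOn_SS hq hq1 T).mono (Icc_subset_Icc (by linarith) le_rfl))
    (fun Y hY => hasDerivAt_SS hk hkl hq hq1 T (by linarith [hY.1]) hY.2)
  have hc1 : 1 < c := hx1a.trans hc.1
  have hqc : 0 < 1 - q * c := one_sub_pos hq hc.2
  have hqc2 : 1 - q * c < y := by
    have := hc.1
    rw [hx1, div_lt_iff₀ hq] at this
    linarith
  have hpos : 0 < SS' k l a b q T c := by
    unfold SS' dd' Ph'
    have g1 : 0 ≤ Real.log c := Real.log_nonneg hc1.le
    have g2 : Real.log (1 - q * c) < Real.log (1 - q) + - (T * M) / q := by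
      rw [← Real.log_exp (- (T * M) / q), ← Real.log_mul hq'.ne' e0.ne']
      exact Real.log_lt_log hqc (hqc2.trans hy1)
    have g3 : c ^ (k - 1) ≤ (1 / q) ^ (k - 1) := pow_le_pow_left₀ (by linarith) hc.2.le _
    have g4 : c ^ (l - 1) ≤ (1 / q) ^ (l - 1) := pow_le_pow_left₀ (by linarith) hc.2.le _
    have g5 : a * (c ^ (k - 1) - 1) + b * (c ^ (l - 1) - 1) ≤ M := by
      rw [hM]
      nlinarith [mul_le_mul_of_nonneg_left g3 ha.le, mul_le_mul_of_nonneg_left g4 hb.le]
    have g6 : T * (a * (c ^ (k - 1) - 1) + b * (c ^ (l - 1) - 1)) ≤ T * M :=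
      mul_le_mul_of_nonneg_left g5 hT.le
    have g7 : q * ((T * M) / q) < q * (Real.log c - Real.log (1 - q * c) + Real.log (1 - q)) := by
      apply mul_lt_mul_of_pos_left _ hq
      rw [neg_div] at g2
      linarith
    have g8 : q * ((T * M) / q) = T * M := by field_simp
    linarith
  rw [hc', h0, lt_div_iff₀ (by linarith)] at hpos
  have := hS x₁ (by linarith) hx1b.le
  linarith

/-- **The largest admissible slope and its point of contact.** -/
theorem touch (hk : 2 ≤ k) (hkl : k < l) (ha : 0 < a) (hb : 0 < b) (hab : a + b = 1)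
    (hq : 0 < q) (hq1 : q < 1) {T₀ : ℝ} (hT₀ : 0 ≤ T₀)
    (hN : ∀ X, 0 ≤ X → X ≤ 1 / q → 0 ≤ SS k l a b q T₀ X) :
    ∃ T X₀ : ℝ, T₀ ≤ T ∧ 0 < T ∧ 0 < X₀ ∧ X₀ < 1 / q ∧
      (∀ X, 0 ≤ X → X ≤ 1 / q → 0 ≤ SS k l a b q T X) ∧
      SS k l a b q T X₀ = 0 ∧ SS' k l a b q T X₀ = 0 ∧
      (X₀ = 1 → T * (a * (k - 1) + b * (l - 1)) = q / (1 - q) ∧
        T * (a * (k - 1) ^ 2 + b * (l - 1) ^ 2) = (q / (1 - q)) ^ 2) := by
  have hone := one_lt_inv' hq hq1
  have hk1 : ((k - 1 : ℕ) : ℝ) = k - 1 := by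
    rw [Nat.cast_sub (by omega)]
    simp
  have hl1 : ((l - 1 : ℕ) : ℝ) = l - 1 := by
    rw [Nat.cast_sub (by omega)]
    simp
  set 𝒯 : Set ℝ := {T | 0 ≤ T ∧ ∀ X, 0 ≤ X → X ≤ 1 / q → 0 ≤ SS k l a b q T X} with h𝒯
  have hle : ∀ X, 0 ≤ X → X ≤ 1 / q → X ≠ 1 → ∀ T ∈ 𝒯, T ≤ dd q X / Ph k l a b X := by
    intro X hX hX' hne T hT
    rw [le_div_iff₀ (Ph_pos hk hkl ha hb hX hne)]
    have := hT.2 X hX hX'
    unfold SS at this
    linarith
  have hbdd : BddAbove 𝒯 :=
    ⟨_, fun T hT => hle 0 le_rfl (by positivity) zero_ne_one T hT⟩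
  have hmem0 : T₀ ∈ 𝒯 := ⟨hT₀, hN⟩
  set T := sSup 𝒯 with hTdef
  have hTT₀ : T₀ ≤ T := le_csSup hbdd hmem0
  have hS : ∀ X, 0 ≤ X → X ≤ 1 / q → 0 ≤ SS k l a b q T X := by
    intro X hX hX'
    by_cases hne : X = 1
    · rw [hne, SS_one hq hq1]
    · have h1 : T ≤ dd q X / Ph k l a b X := csSup_le ⟨T₀, hmem0⟩ (hle X hX hX' hne)
      rw [le_div_iff₀ (Ph_pos hk hkl ha hb hX hne)] at h1
      unfold SS
      linarith
  have hT0 : 0 ≤ T := hT₀.trans hTT₀
  have hnot : ∀ ε > 0, ¬ (∀ X, 0 ≤ X → X ≤ 1 / q → 0 ≤ SS k l a b q (T + ε) X) := by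
    intro ε hε hcon
    have : T + ε ≤ T := le_csSup hbdd ⟨by linarith, hcon⟩
    linarith
  have hTpos : 0 < T := by
    obtain ⟨ε, hε, hε'⟩ := Touch_improve (T := 0) hk hkl ha hb hq hq1 (by
      intro X hX hX' hne
      unfold SS
      have := dd_pos hq hq1 hX hX' hne
      linarith) (by
      unfold SS'' dd''
      have : 0 < 1 - q := by linarith
      rw [zero_mul, sub_zero, one_mul, mul_one]
      positivity)
    rw [zero_add] at hε'
    exact lt_of_lt_of_le hε (le_csSup hbdd ⟨hε.le, hε'⟩)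
  by_cases hcase : ∀ X, 0 ≤ X → X ≤ 1 / q → X ≠ 1 → 0 < SS k l a b q T X
  · -- contact at `1`
    have h2 : ¬ 0 < SS'' k l a b q T 1 := by
      intro h2
      obtain ⟨ε, hε, hε'⟩ := Touch_improve hk hkl ha hb hq hq1 hcase h2
      exact hnot ε hε hε'
    rw [SS''_eq hk hkl hq one_pos hone, div_one] at h2
    have hd := hasDerivAt_HH (k := k) (l := l) (a := a) (b := b) hq T hone
    have hcont := hd.continuousAt
    have h3 : HH k l a b q T 1 = 0 := by
      refine le_antisymm (not_lt.1 h2) ?_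
      by_contra hcon
      push Not at hcon
      have hev : ∀ᶠ X in 𝓝 (1 : ℝ), HH k l a b q T X < 0 := hcont.eventually (gt_mem_nhds hcon)
      have hev2 : ∀ᶠ X in 𝓝[<] (1 : ℝ), HH k l a b q T X < 0 := nhdsWithin_le_nhds hev
      obtain ⟨u, hu, hu'⟩ := (mem_nhdsLT_iff_exists_Ioo_subset' (show (0 : ℝ) < 1 from one_pos)).1 hev2
      obtain ⟨X, hX0, hX1, hX⟩ := Touch_left (k := k) (l := l) (a := a) (b := b) (T := T)
        (u := max u 0) hk hkl hq hq1 (le_max_right _ _) (max_lt hu one_pos) (by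
          intro X hX hX1
          have hX0 : 0 < X := lt_of_le_of_lt (le_max_right _ _) hX
          rw [SS''_eq hk hkl hq hX0 (hX1.trans hone)]
          exact div_neg_of_neg_of_pos (hu' ⟨lt_of_le_of_lt (le_max_left _ _) hX, hX1⟩) hX0)
      have := hS X hX0.le (hX1.trans hone).le
      linarith
    simp only [one_pow, mul_one, hk1, hl1] at hd
    set H' := q ^ 2 / (1 - q) ^ 2 - T * (a * ((k - 1) * (k - 1)) + b * ((l - 1) * (l - 1)))
      with hH'
    have hslope := hasDerivAt_iff_tendsto_slope.1 hd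
    have h4 : H' = 0 := by
      by_contra hne
      rcases lt_or_gt_of_ne hne with hlt | hgt
      · have hev := hslope.eventually (gt_mem_nhds hlt)
        have hev2 : ∀ᶠ X in 𝓝[>] (1 : ℝ), slope (HH k l a b q T) 1 X < 0 :=
          nhdsWithin_mono 1 (fun x (hx : 1 < x) => hx.ne') hev
        obtain ⟨u, hu, hu'⟩ := (mem_nhdsGT_iff_exists_Ioo_subset' hone).1 hev2
        obtain ⟨X, hX0, hX1, hX⟩ := Touch_right (k := k) (l := l) (a := a) (b := b) (T := T)
          (u := min u (1 / q)) hk hkl hq hq1 (lt_min hu hone) (min_le_right _ _) (by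
            intro X hX1 hX
            have hX0 : 0 < X := one_pos.trans hX1
            rw [SS''_eq hk hkl hq hX0 (lt_of_lt_of_le hX (min_le_right _ _))]
            have h5 : slope (HH k l a b q T) 1 X < 0 :=
              hu' ⟨hX1, lt_of_lt_of_le hX (min_le_left _ _)⟩
            rw [slope_def_field, h3, sub_zero, div_lt_iff₀ (by linarith)] at h5
            exact div_neg_of_neg_of_pos (by linarith) hX0)
        have := hS X (by linarith) hX1.le
        linarith
      · have hev := hslope.eventually (lt_mem_nhds hgt)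
        have hev2 : ∀ᶠ X in 𝓝[<] (1 : ℝ), 0 < slope (HH k l a b q T) 1 X :=
          nhdsWithin_mono 1 (fun x (hx : x < 1) => hx.ne) hev
        obtain ⟨u, hu, hu'⟩ := (mem_nhdsLT_iff_exists_Ioo_subset' (show (0 : ℝ) < 1 from one_pos)).1 hev2
        obtain ⟨X, hX0, hX1, hX⟩ := Touch_left (k := k) (l := l) (a := a) (b := b) (T := T)
          (u := max u 0) hk hkl hq hq1 (le_max_right _ _) (max_lt hu one_pos) (by
            intro X hX hX1
            have hX0 : 0 < X := lt_of_le_of_lt (le_max_right _ _) hX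
            rw [SS''_eq hk hkl hq hX0 (hX1.trans hone)]
            have h5 : 0 < slope (HH k l a b q T) 1 X :=
              hu' ⟨lt_of_le_of_lt (le_max_left _ _) hX, hX1⟩
            rw [slope_def_field, h3, sub_zero] at h5
            have h6 : HH k l a b q T X < 0 := by
              by_contra hcon
              push Not at hcon
              have := div_nonpos_of_nonneg_of_nonpos hcon (by linarith : X - 1 ≤ 0)
              linarith
            exact div_neg_of_neg_of_pos h6 hX0)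
        have := hS X hX0.le (hX1.trans hone).le
        linarith
    refine ⟨T, 1, hTT₀, hTpos, one_pos, hone, hS, SS_one hq hq1 T, SS'_one T, fun _ => ⟨?_, ?_⟩⟩
    · unfold HH at h3
      simp only [one_pow, mul_one, hk1, hl1] at h3
      linarith
    · rw [hH'] at h4
      rw [div_pow]
      linear_combination - h4
  · push Not at hcase
    obtain ⟨X₀, hX0, hX1, hne, hle'⟩ := hcase
    have h0 : SS k l a b q T X₀ = 0 := le_antisymm hle' (hS X₀ hX0 hX1)
    have hX0' : 0 < X₀ := by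
      rcases hX0.eq_or_lt with rfl | h
      · exact absurd h0 (Touch2_zero hk hkl ha hb hab hq hq1 hTpos hS)
      · exact h
    have hX1' : X₀ < 1 / q := by
      rcases hX1.eq_or_lt with h | h
      · rw [h] at h0
        exact absurd h0 (Touch2_end hk hkl ha hb hq hq1 hTpos hS)
      · exact h
    have hmin : IsLocalMin (SS k l a b q T) X₀ := by
      filter_upwards [Ioo_mem_nhds hX0' hX1'] with Y hY
      rw [h0]
      exact hS Y hY.1.le hY.2.le
    refine ⟨T, X₀, hTT₀, hTpos, hX0', hX1', hS, h0,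
      hmin.hasDerivAt_eq_zero (hasDerivAt_SS hk hkl hq hq1 T hX0' hX1'), fun h => absurd h hne⟩

end

end Pool.Agent.W_bbc525_td
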