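import Pool.Agent.W_bbc525_td.Final
import Pool.Agent.W_MP_bbc525_pr.Closed

/-!
# The complete upper tail replica symmetry phase diagram for graphs with two degrees
-/

namespace Pool.Agent.W_bbc525_td.TwoDegrees

open MeasureTheory Pool.Agent.W_MP_bbc525_pr Pool.Agent.W_bbc525_h89 Pool.Agent.W_bbc525_td

/-- **Main theorem.** Let `H` be a finite simple graph with at least one edge, all of whose positive
degrees are `k` or `l`, where `0 < k < l ≤ 2 k`, and let `0 < p ≤ q < 1`.  Then the constant `q` is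
a minimizer of the upper tail variational problem `UT_p(H, q)` if and only if
`I_p(r) - I_p(q) ≥ (q I_p'(q) / (2 e(H))) ∑_v ((r/q)^{deg v} - 1)` for all `r ∈ [0, 1]`.
In this case it is the unique minimizer, if both degrees occur (or if `k = 1`).  If `k = 1`, so that
`H` is a graph of maximum degree at most two, and `n₂` is the number of vertices of degree two, the
condition is `n₂ (log (q/(1-q)) - log (p/(1-p))) ≤ 2 e(H) q κ(q)`; for `n₂ > 0` and `q ≠ 1/2`
this is `1 ≤ (1 + (q⁻¹ - 1) ^ (1 + (2 e(H)/n₂) q/(1 - 2q))) p`. -/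
theorem result {V : Type*} [Fintype V] [DecidableEq V] (H : SimpleGraph V) [DecidableRel H.Adj]
    (hedge : 0 < H.edgeFinset.card) {k l : ℕ} (hk : 0 < k) (hkl : k < l) (hl : l ≤ 2 * k)
    (hdeg : ∀ v, H.degree v = 0 ∨ H.degree v = k ∨ H.degree v = l)
    {p q : ℝ} (hp : 0 < p) (hpq : p ≤ q) (hq : q < 1) :
    (ReplicaSymmetric H p q ↔
      ∀ r : ℝ, 0 ≤ r → r ≤ 1 →
        (q * (Real.log (q / (1 - q)) - Real.log (p / (1 - p))) / (2 * H.edgeFinset.card)) *
          ∑ v, ((r / q) ^ H.degree v - 1) ≤ relEnt p r - relEnt p q) ∧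
    (((∃ v, H.degree v = k) ∧ (∃ v, H.degree v = l) ∨ k = 1) →
      ReplicaSymmetric H p q → UniqueMinimizer H p q) ∧
    (k = 1 →
      (ReplicaSymmetric H p q ↔
        ((Finset.univ.filter fun v => H.degree v = 2).card : ℝ) *
          (Real.log (q / (1 - q)) - Real.log (p / (1 - p))) ≤
            2 * H.edgeFinset.card * q * kappa q) ∧
      (0 < (Finset.univ.filter fun v => H.degree v = 2).card → q ≠ 1 / 2 →
        (ReplicaSymmetric H p q ↔
          1 ≤ (1 + (q⁻¹ - 1) ^ (1 + (2 * H.edgeFinset.card /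
            ((Finset.univ.filter fun v => H.degree v = 2).card : ℝ)) * q / (1 - 2 * q))) * p))) := by
  have hp1 : p < 1 := lt_of_le_of_lt hpq hq
  have hq0 : 0 < q := lt_of_lt_of_le hp hpq
  have nec : ReplicaSymmetric H p q → Ncond H p q := fun h r hr hr1 =>
    necessary H hedge hp hpq hq h r hr hr1
  refine ⟨⟨fun h r hr hr1 => ?_, fun h => ?_⟩, fun hD h => ?_, fun h1 => ?_⟩
  · have h3 := nec h r hr hr1
    rw [logit_eq hq0 hq, logit_eq hp hp1]
    exact h3
  · refine td_suff hk hkl hl hdeg hedge hp hpq hq fun r hr hr1 => ?_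
    have h3 := h r hr hr1
    rw [logit_eq hq0 hq, logit_eq hp hp1] at h3
    exact h3
  · rcases hD with ⟨⟨u, hu⟩, v, hv⟩ | h1
    · exact td_unique hk hkl hl hdeg hedge hu hv hp hpq hq (nec h)
    · have hH : ∀ v, H.degree v ≤ 2 := fun v => by
        rcases hdeg v with h2 | h2 | h2 <;> omega
      exact (diagram_two H hH hedge hp hpq hq).2 h
  · have hH : ∀ v, H.degree v ≤ 2 := fun v => by
      rcases hdeg v with h2 | h2 | h2 <;> omega
    have h := diagram_two H hH hedge hp hpq hq
    rw [kq_eq_kappa hq0 hq] at h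
    have h1 : ReplicaSymmetric H p q ↔
        ((Finset.univ.filter fun v => H.degree v = 2).card : ℝ) *
          (Real.log (q / (1 - q)) - Real.log (p / (1 - p))) ≤
            2 * H.edgeFinset.card * q * kappa q := by
      rw [logit_eq hq0 hq, logit_eq hp hp1]
      exact h.1
    refine ⟨h1, fun hn hh => ?_⟩
    rw [← curve_iff hp hp1 hq0 hq hh, h1, logit_eq hq0 hq, logit_eq hp hp1]
    have hn' : (0:ℝ) < ((Finset.univ.filter fun v => H.degree v = 2).card : ℝ) := by
      exact_mod_cast hn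
    rw [div_mul_eq_mul_div, div_mul_eq_mul_div, le_div_iff₀ hn', mul_comm]

end Pool.Agent.W_bbc525_td.TwoDegrees
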